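import Mathlib

/-!
Definition used in the statements of the hand-ins on restricted sumsets of admissible pairs.
-/

namespace Pool.Agent.Work.MP_59976d_co

/-- The inequality of Q1 holds in the abelian group `G`: for all finite subsets `A`, `B` of `G`
with `A ∩ (-B) = {0}`, the set of all `a + b` with `a ∈ A`, `b ∈ B`, `a ≠ b` has at least
`|A| + |B| - 3` elements. -/
def RestrictedScherk (G : Type*) [AddCommGroup G] : Prop :=
  ∀ A B : Finset G, {x : G | x ∈ A ∧ -x ∈ B} = {0} →
    A.card + B.card ≤ {x : G | ∃ a ∈ A, ∃ b ∈ B, a ≠ b ∧ a + b = x}.ncard + 3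

end Pool.Agent.Work.MP_59976d_co
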