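import Pool.Agent.Work.MP_59976d_co.Step

/-!
Restricted sumsets in groups of prime order (Dias da Silva - Hamidoune, Alon - Nathanson - Ruzsa).
-/

namespace Pool.Agent.Work.MP_59976d_co

open Finset MvPolynomial

lemma coeff_top (p : ℕ) [Fact p.Prime] (m n : ℕ) :
    coeff (Finsupp.single (0 : Fin 2) (m + 1) + Finsupp.single 1 (n + 1))
      (((X 0 - X 1) * (X 0 + X 1) ^ (m + n + 1) : MvPolynomial (Fin 2) (ZMod p))) =
      ((m + n + 1).choose m : ZMod p) - ((m + n + 1).choose (m + 1) : ZMod p) := by
  have hc : ∀ i j : ℕ, coeff (Finsupp.single (0 : Fin 2) i + Finsupp.single 1 j)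
      ((X 0 + X 1) ^ (m + n + 1) : MvPolynomial (Fin 2) (ZMod p)) =
      if i + j = m + n + 1 then ((m + n + 1).choose i : ZMod p) else 0 := by
    intro i j
    rw [add_pow, coeff_sum]
    have : ∀ k ∈ range (m + n + 1 + 1),
        coeff (Finsupp.single (0 : Fin 2) i + Finsupp.single 1 j)
          ((X 0 ^ k * X 1 ^ (m + n + 1 - k) * ((m + n + 1).choose k : MvPolynomial (Fin 2) (ZMod p)))) =
          if k = i ∧ m + n + 1 - k = j then ((m + n + 1).choose k : ZMod p) else 0 := by
      intro k hk
      have e : (X 0 ^ k * X 1 ^ (m + n + 1 - k) *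
          ((m + n + 1).choose k : MvPolynomial (Fin 2) (ZMod p))) =
          monomial (Finsupp.single (0 : Fin 2) k + Finsupp.single 1 (m + n + 1 - k))
            ((m + n + 1).choose k : ZMod p) := by
        rw [X_pow_eq_monomial, X_pow_eq_monomial, monomial_mul, one_mul]
        have : ((m + n + 1).choose k : MvPolynomial (Fin 2) (ZMod p)) =
            C ((m + n + 1).choose k : ZMod p) := by simp
        rw [this, mul_comm, C_mul_monomial, mul_one]
      rw [e, coeff_monomial]
      have hiff : (Finsupp.single (0 : Fin 2) k + Finsupp.single 1 (m + n + 1 - k) =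
          Finsupp.single (0 : Fin 2) i + Finsupp.single 1 j) ↔ (k = i ∧ m + n + 1 - k = j) := by
        constructor
        · intro h
          have h0 := DFunLike.congr_fun h 0
          have h1 := DFunLike.congr_fun h 1
          simp at h0 h1
          exact ⟨h0, h1⟩
        · rintro ⟨rfl, rfl⟩; rfl
      simp only [hiff]
    rw [Finset.sum_congr rfl this]
    by_cases hij : i + j = m + n + 1
    · rw [if_pos hij]
      rw [Finset.sum_eq_single i]
      · rw [if_pos ⟨rfl, by omega⟩]
      · intro b _ hb
        rw [if_neg (fun h => hb h.1)]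
      · intro hi
        exfalso; apply hi; rw [mem_range]; omega
    · rw [if_neg hij]
      apply Finset.sum_eq_zero
      intro k hk
      rw [mem_range] at hk
      rw [if_neg]
      rintro ⟨rfl, h⟩
      omega
  rw [sub_mul, coeff_sub]
  have e0 : Finsupp.single (0 : Fin 2) (m + 1) + Finsupp.single (1 : Fin 2) (n + 1) =
      Finsupp.single (0 : Fin 2) 1 + (Finsupp.single (0 : Fin 2) m + Finsupp.single (1 : Fin 2) (n + 1)) := by
    rw [← add_assoc, ← Finsupp.single_add, add_comm 1 m]
  have e1 : Finsupp.single (0 : Fin 2) (m + 1) + Finsupp.single (1 : Fin 2) (n + 1) =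
      Finsupp.single (1 : Fin 2) 1 + (Finsupp.single (0 : Fin 2) (m + 1) + Finsupp.single (1 : Fin 2) n) := by
    rw [add_left_comm, ← Finsupp.single_add, add_comm 1 n]
  have h0 := coeff_X_mul (Finsupp.single (0 : Fin 2) m + Finsupp.single (1 : Fin 2) (n + 1)) 0
    ((X 0 + X 1) ^ (m + n + 1) : MvPolynomial (Fin 2) (ZMod p))
  have h1 := coeff_X_mul (Finsupp.single (0 : Fin 2) (m + 1) + Finsupp.single (1 : Fin 2) n) 1
    ((X 0 + X 1) ^ (m + n + 1) : MvPolynomial (Fin 2) (ZMod p))
  rw [e0, h0, ← e0, e1, h1, hc, hc, if_pos (by omega), if_pos (by omega)]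

lemma choose_ne (p : ℕ) [Fact p.Prime] (m n : ℕ) (hmn : m ≠ n) (hle : m + n + 1 < p) :
    ((m + n + 1).choose m : ZMod p) - ((m + n + 1).choose (m + 1) : ZMod p) ≠ 0 := by
  have hp : p.Prime := Fact.out
  have h1 : (m + n + 1).choose (m + 1) * (m + 1) = (m + n + 1).choose m * (n + 1) := by
    have := Nat.choose_succ_right_eq (m + n + 1) m
    rw [this]; congr 1; omega
  have h2 : (((m + n + 1).choose (m + 1) : ℕ) : ZMod p) * (m + 1) =
      (((m + n + 1).choose m : ℕ) : ZMod p) * (n + 1) := by
    exact_mod_cast congrArg (Nat.cast : ℕ → ZMod p) h1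
  intro h
  have h3 : (((m + n + 1).choose m : ℕ) : ZMod p) = (((m + n + 1).choose (m + 1) : ℕ) : ZMod p) :=
    sub_eq_zero.1 h
  rw [← h3] at h2
  have h4 : (((m + n + 1).choose m : ℕ) : ZMod p) * ((m : ZMod p) - n) = 0 := by
    linear_combination h2
  rcases mul_eq_zero.1 h4 with h5 | h5
  · rw [ZMod.natCast_eq_zero_iff] at h5
    have h6 : (m + n + 1).choose m ∣ (m + n + 1).factorial := by
      have := Nat.choose_mul_factorial_mul_factorial (n := m + n + 1) (k := m) (by omega)
      exact ⟨m.factorial * (m + n + 1 - m).factorial, by rw [← this, mul_assoc]⟩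
    have h7 := (Nat.Prime.dvd_factorial hp).1 (h5.trans h6)
    omega
  · have h6 : (m : ZMod p) = n := sub_eq_zero.1 h5
    rw [ZMod.natCast_eq_natCast_iff'] at h6
    rw [Nat.mod_eq_of_lt (by omega), Nat.mod_eq_of_lt (by omega)] at h6
    exact hmn h6


/-- Restricted sums of sets of different sizes in `ZMod p`. -/
theorem anr (p : ℕ) [Fact p.Prime] (A B : Finset (ZMod p)) (hA : 1 ≤ A.card) (hB : 1 ≤ B.card)
    (hne : A.card ≠ B.card) (hle : A.card + B.card ≤ p + 2) :
    A.card + B.card ≤ (rs A B).card + 2 := by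
  by_contra hcon
  push Not at hcon
  -- trivial cases
  rcases Nat.lt_or_ge B.card 2 with hB2 | hB2
  · have hB1 : B.card = 1 := by omega
    obtain ⟨b, hb⟩ := card_eq_one.1 hB1
    have hsub : (A.erase b).image (fun a => a + b) ⊆ rs A B := by
      intro x hx
      rw [mem_image] at hx
      obtain ⟨a, ha, rfl⟩ := hx
      rw [mem_erase] at ha
      exact mem_rs.2 ⟨a, ha.2, b, by rw [hb]; exact mem_singleton_self b, ha.1, rfl⟩
    have h1 := card_le_card hsub
    rw [card_image_of_injective _ (fun x y hxy => by simpa using hxy)] at h1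
    have h2 := pred_card_le_card_erase (s := A) (a := b)
    omega
  rcases Nat.lt_or_ge A.card 2 with hA2 | hA2
  · have hA1 : A.card = 1 := by omega
    obtain ⟨a, ha⟩ := card_eq_one.1 hA1
    have hsub : (B.erase a).image (fun b => a + b) ⊆ rs A B := by
      intro x hx
      rw [mem_image] at hx
      obtain ⟨b, hb, rfl⟩ := hx
      rw [mem_erase] at hb
      exact mem_rs.2 ⟨a, by rw [ha]; exact mem_singleton_self a, b, hb.2, fun h => hb.1 h.symm, rfl⟩
    have h1 := card_le_card hsub
    rw [card_image_of_injective _ (fun x y hxy => by simpa using hxy)] at h1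
    have h2 := pred_card_le_card_erase (s := B) (a := a)
    omega
  obtain ⟨m, hm⟩ : ∃ m, A.card = m + 2 := ⟨A.card - 2, by omega⟩
  obtain ⟨n, hn⟩ : ∃ n, B.card = n + 2 := ⟨B.card - 2, by omega⟩
  set C := rs A B with hC
  have hCle : C.card ≤ m + n + 1 := by omega
  -- the polynomial in one variable
  set P : Polynomial (ZMod p) :=
    (∏ c ∈ C, (Polynomial.X - Polynomial.C c)) * Polynomial.X ^ (m + n + 1 - C.card) with hP
  have hPmonic : P.Monic := by
    rw [hP]
    exact (Polynomial.monic_prod_of_monic _ _ (fun c _ => Polynomial.monic_X_sub_C c)).mul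
      (Polynomial.monic_X_pow _)
  have hPdeg : P.natDegree = m + n + 1 := by
    rw [hP, Polynomial.Monic.natDegree_mul
      (Polynomial.monic_prod_of_monic _ _ (fun c _ => Polynomial.monic_X_sub_C c))
      (Polynomial.monic_X_pow _), Polynomial.natDegree_X_pow,
      Polynomial.natDegree_prod_of_monic _ _ (fun c _ => Polynomial.monic_X_sub_C c)]
    simp only [Polynomial.natDegree_X_sub_C, sum_const, smul_eq_mul, mul_one]
    omega
  set L : MvPolynomial (Fin 2) (ZMod p) := X 0 + X 1 with hL
  set f : MvPolynomial (Fin 2) (ZMod p) := (X 0 - X 1) * Polynomial.aeval L P with hf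
  set t : Fin 2 →₀ ℕ := Finsupp.single (0 : Fin 2) (m + 1) + Finsupp.single 1 (n + 1) with ht
  have htdeg : t.degree = m + n + 2 := by
    rw [ht, map_add, Finsupp.degree_single, Finsupp.degree_single]; omega
  have hfsum : f = ∑ j ∈ range (m + n + 1 + 1), P.coeff j • ((X 0 - X 1) * L ^ j) := by
    rw [hf, Polynomial.aeval_eq_sum_range, hPdeg, Finset.mul_sum]
    apply Finset.sum_congr rfl
    intro j _
    rw [mul_smul_comm]
  have hhom : ∀ j, (((X 0 - X 1) * L ^ j) : MvPolynomial (Fin 2) (ZMod p)).IsHomogeneous (1 + j) := by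
    intro j
    have h1 : ((X 0 - X 1) : MvPolynomial (Fin 2) (ZMod p)).IsHomogeneous 1 :=
      (isHomogeneous_X _ _).sub (isHomogeneous_X _ _)
    have h2 : (L ^ j).IsHomogeneous (1 * j) := by
      apply IsHomogeneous.pow
      exact (isHomogeneous_X _ _).add (isHomogeneous_X _ _)
    rw [one_mul] at h2
    exact h1.mul h2
  have hcoeff : coeff t f = ((m + n + 1).choose m : ZMod p) - ((m + n + 1).choose (m + 1) : ZMod p) := by
    rw [hfsum, coeff_sum, Finset.sum_range_succ, Finset.sum_eq_zero, zero_add]
    · rw [coeff_smul]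
      have : P.coeff (m + n + 1) = 1 := by
        rw [← hPdeg]; exact hPmonic
      rw [this, one_smul, hL, ht]
      exact coeff_top p m n
    · intro j hj
      rw [mem_range] at hj
      rw [coeff_smul]
      rw [(hhom j).coeff_eq_zero, smul_zero]
      rw [htdeg]; omega
  have hcne : coeff t f ≠ 0 := by
    rw [hcoeff]
    apply choose_ne p m n
    · intro h; apply hne; omega
    · omega
  have hdegle : f.totalDegree ≤ m + n + 2 := by
    rw [hfsum]
    apply totalDegree_finsetSum_le
    intro j hj
    rw [mem_range] at hj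
    refine (totalDegree_smul_le _ _).trans ((hhom j).totalDegree_le.trans ?_)
    omega
  have hdeg : f.totalDegree = t.degree := by
    apply le_antisymm
    · rw [htdeg]; exact hdegle
    · have := le_totalDegree (p := f) (s := t) (mem_support_iff.2 hcne)
      rw [Finsupp.degree_apply]
      exact this
  obtain ⟨s, hs, hsf⟩ := combinatorial_nullstellensatz_exists_eval_nonzero f t hcne hdeg
    (fun i => if i = 0 then A else B) (by
      intro i
      fin_cases i
      · simp [ht, hm]
      · simp [ht, hn])
  apply hsf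
  have hs0 := hs 0
  have hs1 := hs 1
  simp at hs0 hs1
  rw [hf, map_mul]
  by_cases heq : s 0 = s 1
  · simp [heq]
  have hmemC : s 0 + s 1 ∈ C := mem_rs.2 ⟨s 0, hs0, s 1, hs1, heq, rfl⟩
  have : eval s (Polynomial.aeval L P) = Polynomial.eval (s 0 + s 1) P := by
    have h1 : eval s (Polynomial.aeval L P) = Polynomial.eval₂ (RingHom.id _) (s 0 + s 1) P := by
      rw [Polynomial.aeval_def, Polynomial.hom_eval₂]
      congr 1
      · ext x; simp
      · simp [hL]
    rw [h1]; rfl
  rw [this, hP, Polynomial.eval_mul, Polynomial.eval_prod]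
  rw [Finset.prod_eq_zero hmemC (by simp)]
  simp

/-- The inequality of Q1 in `ZMod p`. -/
theorem zmod_case (p : ℕ) [Fact p.Prime] (A B : Finset (ZMod p)) (h : Adm A B) :
    A.card + B.card ≤ (rs A B).card + 3 := by
  have hcard : A.card + B.card ≤ p + 1 := by
    have h1 : (A ∩ B.image (fun b => -b)) ⊆ {0} := by
      intro x hx
      rw [mem_inter, mem_image] at hx
      obtain ⟨hxA, b, hb, rfl⟩ := hx
      rw [mem_singleton]
      exact h.uniq _ hxA (by rw [neg_neg]; exact hb)
    have h2 := card_le_card h1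
    rw [card_singleton] at h2
    have h3 := card_union_add_card_inter A (B.image (fun b => -b))
    rw [card_image_of_injective _ neg_injective] at h3
    have h4 := card_le_univ (A ∪ B.image (fun b => -b))
    rw [ZMod.card] at h4
    omega
  have hA1 : 1 ≤ A.card := card_pos.2 ⟨0, h.zA⟩
  have hB1 : 1 ≤ B.card := card_pos.2 ⟨0, h.zB⟩
  by_cases hne : A.card = B.card
  · rcases Nat.lt_or_ge B.card 2 with hB2 | hB2
    · omega
    · have h5 := card_erase_of_mem h.zB
      have h6 := anr p A (B.erase 0) hA1 (by omega) (by omega) (by omega)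
      have h7 := card_le_card (rs_mono (Subset.refl A) (erase_subset 0 B))
      omega
  · have := anr p A B hA1 hB1 hne (by omega)
    omega

end Pool.Agent.Work.MP_59976d_co
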