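import Pool.Agent.Work.MP_59976d_co.Defs
import Pool.Agent.Work.MP_59976d_co.ZModCase

/-!
Restricted sumsets: reduction to the torsion subgroup and classes of groups.
-/

namespace Pool.Agent.Work.MP_59976d_co

open Finset

universe u

variable {G : Type u} [AddCommGroup G]

/-- A homomorphism to the rationals that does not vanish on given elements of infinite order. -/
lemma exists_hom (S : Finset G) :
    ∃ φ : G →+ ℚ, ∀ g ∈ S, ¬ IsOfFinAddOrder g → φ g ≠ 0 := by
  classical
  let ι := {g : G // g ∈ S ∧ ¬ IsOfFinAddOrder g}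
  have : Finite ι := by
    apply Set.Finite.to_subtype
    exact (S.finite_toSet).subset (fun g hg => hg.1)
  let v : ι → DivisibleHull G := fun g => DivisibleHull.coeAddMonoidHom G g.1
  have hv : ∀ i, v i ≠ 0 := by
    rintro ⟨g, hg, hinf⟩ h0
    apply hinf
    have h1 : (DivisibleHull.mk g 1 : DivisibleHull G) = DivisibleHull.mk 0 1 := by
      rw [DivisibleHull.mk_zero]; exact h0
    rw [DivisibleHull.mk_eq_mk] at h1
    obtain ⟨w, hw⟩ := h1
    rw [isOfFinAddOrder_iff_nsmul_eq_zero]
    refine ⟨w.val, w.pos, ?_⟩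
    simpa using hw
  obtain ⟨f, hf⟩ := Module.exists_dual_forall_apply_ne_zero (K := ℚ) v hv
  refine ⟨(f.toAddMonoidHom).comp (DivisibleHull.coeAddMonoidHom G), ?_⟩
  intro g hg hinf
  exact hf ⟨g, hg, hinf⟩

lemma adm_iff [DecidableEq G] (A B : Finset G) :
    {x : G | x ∈ A ∧ -x ∈ B} = {0} ↔ Adm A B := by
  constructor
  · intro h
    have h0 : (0 : G) ∈ {x : G | x ∈ A ∧ -x ∈ B} := by rw [h]; rfl
    refine ⟨h0.1, by simpa using h0.2, ?_⟩
    intro a ha hb
    have : a ∈ {x : G | x ∈ A ∧ -x ∈ B} := ⟨ha, hb⟩
    rw [h] at this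
    exact this
  · intro h
    ext x
    constructor
    · intro hx
      exact h.uniq x hx.1 hx.2
    · intro hx
      rw [Set.mem_singleton_iff] at hx
      subst hx
      exact ⟨h.zA, by rw [neg_zero]; exact h.zB⟩

lemma ncard_rs [DecidableEq G] (A B : Finset G) :
    {x : G | ∃ a ∈ A, ∃ b ∈ B, a ≠ b ∧ a + b = x}.ncard = (rs A B).card := by
  have : {x : G | ∃ a ∈ A, ∃ b ∈ B, a ≠ b ∧ a + b = x} = (rs A B : Set G) := by
    ext x
    rw [Finset.mem_coe, mem_rs]
    rfl
  rw [this, Set.ncard_coe_finset]

lemma restrictedScherk_iff [DecidableEq G] :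
    RestrictedScherk G ↔ ∀ A B : Finset G, Adm A B → A.card + B.card ≤ (rs A B).card + 3 := by
  unfold RestrictedScherk
  constructor
  · intro h A B hAB
    have := h A B ((adm_iff A B).2 hAB)
    rwa [ncard_rs] at this
  · intro h A B hAB
    rw [ncard_rs]
    exact h A B ((adm_iff A B).1 hAB)

/-- Images under injective homomorphisms. -/
lemma of_injective {H : Type*} [AddCommGroup H] [DecidableEq G] (hH : RestrictedScherk H)
    (f : H →+ G) (hf : Function.Injective f) (A B : Finset G) (h : Adm A B)
    (hA : ∀ a ∈ A, a ∈ Set.range f) (hB : ∀ b ∈ B, b ∈ Set.range f) :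
    A.card + B.card ≤ (rs A B).card + 3 := by
  classical
  rw [restrictedScherk_iff] at hH
  set A' := A.preimage f (hf.injOn) with hA'
  set B' := B.preimage f (hf.injOn) with hB'
  have iA : A'.image f = A := by
    ext x
    rw [mem_image]
    constructor
    · rintro ⟨y, hy, rfl⟩; exact mem_preimage.1 hy
    · intro hx
      obtain ⟨y, rfl⟩ := hA x hx
      exact ⟨y, mem_preimage.2 hx, rfl⟩
  have iB : B'.image f = B := by
    ext x
    rw [mem_image]
    constructor
    · rintro ⟨y, hy, rfl⟩; exact mem_preimage.1 hy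
    · intro hx
      obtain ⟨y, rfl⟩ := hB x hx
      exact ⟨y, mem_preimage.2 hx, rfl⟩
  have hadm : Adm A' B' := by
    refine ⟨mem_preimage.2 (by rw [map_zero]; exact h.zA),
      mem_preimage.2 (by rw [map_zero]; exact h.zB), ?_⟩
    intro a ha hb
    apply hf
    rw [map_zero]
    apply h.uniq _ (mem_preimage.1 ha)
    rw [← map_neg]; exact mem_preimage.1 hb
  have h1 := hH A' B' hadm
  have h2 : (rs A' B').image f ⊆ rs A B := by
    intro x hx
    rw [mem_image] at hx
    obtain ⟨y, hy, rfl⟩ := hx
    rw [mem_rs] at hy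
    obtain ⟨a, ha, b, hb, hne, rfl⟩ := hy
    exact mem_rs.2 ⟨f a, mem_preimage.1 ha, f b, mem_preimage.1 hb, fun h => hne (hf h),
      (map_add f a b).symm⟩
  have h3 := card_le_card h2
  rw [card_image_of_injective _ hf] at h3
  have h4 : A.card = A'.card := by rw [← iA, card_image_of_injective _ hf]
  have h5 : B.card = B'.card := by rw [← iB, card_image_of_injective _ hf]
  omega

/-- It suffices to treat pairs of sets of elements of finite order. -/
theorem of_torsion [DecidableEq G] (A B : Finset G) (h : Adm A B)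
    (htor : ∀ A' B' : Finset G, (∀ a ∈ A', IsOfFinAddOrder a) → (∀ b ∈ B', IsOfFinAddOrder b) →
      Adm A' B' → A'.card + B'.card ≤ (rs A' B').card + 3) :
    A.card + B.card ≤ (rs A B).card + 3 := by
  obtain ⟨φ, hφ⟩ := exists_hom (A ∪ B)
  apply step φ A B h
  apply htor
  · intro a ha
    rw [mem_filter] at ha
    by_contra hinf
    exact hφ a (mem_union_left _ ha.1) hinf ha.2
  · intro b hb
    rw [mem_filter] at hb
    by_contra hinf
    exact hφ b (mem_union_right _ hb.1) hinf hb.2
  · refine ⟨?_, ?_, ?_⟩
    · rw [mem_filter]; exact ⟨h.zA, map_zero φ⟩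
    · rw [mem_filter]; exact ⟨h.zB, map_zero φ⟩
    · intro a ha hb
      exact h.uniq a (mem_filter.1 ha).1 (mem_filter.1 hb).1

/-- Reduction to the torsion subgroup. -/
theorem reduction : RestrictedScherk G ↔ RestrictedScherk (AddCommGroup.torsion G) := by
  classical
  constructor
  · intro hG
    rw [restrictedScherk_iff]
    intro A B h
    have hinj : Function.Injective (AddCommGroup.torsion G).subtype :=
      AddSubgroup.subtype_injective _
    rw [restrictedScherk_iff] at hG
    have h1 := hG (A.image (AddCommGroup.torsion G).subtype)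
      (B.image (AddCommGroup.torsion G).subtype) (by
        refine ⟨mem_image.2 ⟨0, h.zA, map_zero _⟩, mem_image.2 ⟨0, h.zB, map_zero _⟩, ?_⟩
        intro a ha hb
        rw [mem_image] at ha hb
        obtain ⟨a', ha', rfl⟩ := ha
        obtain ⟨b', hb', hb''⟩ := hb
        have : b' = -a' := hinj (by rw [hb'', map_neg])
        subst this
        rw [h.uniq a' ha' hb', map_zero])
    rw [card_image_of_injective _ hinj, card_image_of_injective _ hinj] at h1
    have h2 : rs (A.image (AddCommGroup.torsion G).subtype)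
        (B.image (AddCommGroup.torsion G).subtype) ⊆
        (rs A B).image (AddCommGroup.torsion G).subtype := by
      intro x hx
      rw [mem_rs] at hx
      obtain ⟨a, ha, b, hb, hne, rfl⟩ := hx
      rw [mem_image] at ha hb
      obtain ⟨a', ha', rfl⟩ := ha
      obtain ⟨b', hb', rfl⟩ := hb
      rw [mem_image]
      exact ⟨a' + b', mem_rs.2 ⟨a', ha', b', hb', fun h => hne (by rw [h]), rfl⟩, map_add _ _ _⟩
    have h3 := card_le_card h2
    rw [card_image_of_injective _ hinj] at h3
    omega
  · intro hT
    rw [restrictedScherk_iff]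
    intro A B h
    apply of_torsion A B h
    intro A' B' hA' hB' hadm
    apply of_injective hT (AddCommGroup.torsion G).subtype (AddSubgroup.subtype_injective _) A' B' hadm
    · intro a ha
      exact ⟨⟨a, hA' a ha⟩, rfl⟩
    · intro b hb
      exact ⟨⟨b, hB' b hb⟩, rfl⟩

/-- Groups whose elements of finite order have order at most two. -/
theorem elementary (h2 : ∀ g : G, IsOfFinAddOrder g → g + g = 0) : RestrictedScherk G := by
  classical
  rw [restrictedScherk_iff]
  intro A B h
  apply of_torsion A B h
  intro A' B' hA' hB' hadm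
  obtain ⟨h3, h4⟩ := card_two_torsion A' B' hadm (by
    rintro g (hg | hg)
    · exact h2 g (hA' g hg)
    · exact h2 g (hB' g hg))
  have := card_le_card h4
  omega

/-- Groups whose torsion subgroup has prime order. -/
theorem prime_torsion (hp : (Nat.card (AddCommGroup.torsion G)).Prime) : RestrictedScherk G := by
  classical
  rw [reduction]
  set p := Nat.card (AddCommGroup.torsion G) with hpdef
  haveI : Fact p.Prime := ⟨hp⟩
  haveI : IsAddCyclic (AddCommGroup.torsion G) := isAddCyclic_of_prime_card (p := p) hpdef.symm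
  have e : ZMod p ≃+ AddCommGroup.torsion G := zmodAddCyclicAddEquiv inferInstance
  have hZ : RestrictedScherk (ZMod p) := by
    rw [restrictedScherk_iff]
    intro A B h
    exact zmod_case p A B h
  rw [restrictedScherk_iff]
  intro A B h
  exact of_injective hZ e.toAddMonoidHom e.injective A B h
    (fun a _ => e.surjective a) (fun b _ => e.surjective b)

end Pool.Agent.Work.MP_59976d_co
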