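import Pool.Agent.Work.MP_59976d_co.Star
import Pool.Agent.Work.MP_59976d_co.Main

/-!
The inequality of Q1 in elementary abelian `p`-groups.
-/

namespace Pool.Agent.Work.MP_59976d_co

open Finset
open scoped Pointwise

/-- Restricted sums in `ZMod p`, general form. -/
lemma anr' (p : ℕ) [Fact p.Prime] (hp : p ≠ 2) (X Y : Finset (ZMod p)) (hX : X.Nonempty)
    (hY : Y.Nonempty) :
    p ≤ (rs X Y).card ∨
      X.card + Y.card ≤ (rs X Y).card + 2 + (if X.card = Y.card then 1 else 0) := by
  have hp' : p.Prime := Fact.out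
  have hodd : p % 2 = 1 := (hp'.eq_two_or_odd).resolve_left hp
  have hXp : X.card ≤ p := by have := card_le_univ X; rwa [ZMod.card] at this
  have hYp : Y.card ≤ p := by have := card_le_univ Y; rwa [ZMod.card] at this
  have hX1 := card_pos.2 hX
  have hY1 := card_pos.2 hY
  rcases Nat.lt_or_ge (p + 2) (X.card + Y.card) with hc | hc
  · left
    obtain ⟨Y', hY', hY'c⟩ := exists_subset_card_eq (show p + 2 - X.card ≤ Y.card by omega)
    have h1 := anr p X Y' hX1 (by omega) (by omega) (by omega)
    have h2 := card_le_card (rs_mono (Subset.refl X) hY')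
    omega
  · right
    by_cases hne : X.card = Y.card
    · rw [if_pos hne]
      rcases Nat.lt_or_ge Y.card 2 with hB2 | hB2
      · omega
      · obtain ⟨y, hy⟩ := hY
        have h5 := card_erase_of_mem hy
        have h6 := anr p X (Y.erase y) hX1 (by omega) (by omega) (by omega)
        have h7 := card_le_card (rs_mono (Subset.refl X) (erase_subset y Y))
        omega
    · rw [if_neg hne]
      have := anr p X Y hX1 hY1 hne hc
      omega

section scaling

variable {p : ℕ} [Fact p.Prime] {V : Type*} [AddCommGroup V] [Module (ZMod p) V] [DecidableEq V]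

/-- Averaging over the lines through the origin. -/
lemma scaling (f g : V → ℕ) (S : Finset V) (hg : ∀ x, x ∉ S → g x = 0)
    (hline : ∀ u : V, u ≠ 0 → ∑ t ∈ univ.erase (0 : ZMod p), f (t • u) ≤
      ∑ t ∈ univ.erase (0 : ZMod p), g (t • u)) :
    ∑ x ∈ S.erase 0, f x ≤ ∑ x ∈ S.erase 0, g x := by
  classical
  set U : Finset V := ((univ.erase (0 : ZMod p)) ×ˢ (S.erase 0)).image (fun z => z.1 • z.2) with hU
  have hU0 : ∀ u ∈ U, u ≠ 0 := by
    intro u hu
    rw [hU, mem_image] at hu
    obtain ⟨⟨t, x⟩, hz, rfl⟩ := hu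
    rw [mem_product, mem_erase, mem_erase] at hz
    exact smul_ne_zero hz.1.1 hz.2.1
  have hscale : ∀ t : ZMod p, t ≠ 0 → ∀ u ∈ U, t • u ∈ U := by
    intro t ht u hu
    rw [hU, mem_image] at hu ⊢
    obtain ⟨⟨s, x⟩, hz, rfl⟩ := hu
    rw [mem_product, mem_erase, mem_erase] at hz
    refine ⟨(t * s, x), ?_, by rw [mul_smul]⟩
    rw [mem_product, mem_erase, mem_erase]
    exact ⟨⟨mul_ne_zero ht hz.1.1, mem_univ _⟩, hz.2⟩
  have hSU : S.erase 0 ⊆ U := by
    intro x hx
    rw [hU, mem_image]
    refine ⟨(1, x), ?_, one_smul _ _⟩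
    rw [mem_product, mem_erase]
    exact ⟨⟨one_ne_zero, mem_univ _⟩, hx⟩
  have hinv : ∀ h : V → ℕ, ∀ t ∈ univ.erase (0 : ZMod p), ∑ u ∈ U, h (t • u) = ∑ u ∈ U, h u := by
    intro h t ht
    rw [mem_erase] at ht
    refine Finset.sum_bij (fun u _ => t • u) (fun u hu => hscale t ht.1 u hu) ?_ ?_ ?_
    · intro a _ b _ hab
      exact smul_right_injective V ht.1 hab
    · intro b hb
      refine ⟨t⁻¹ • b, hscale _ (inv_ne_zero ht.1) b hb, ?_⟩
      rw [smul_smul, mul_inv_cancel₀ ht.1, one_smul]
    · intro a _; rfl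
  have hdouble : ∀ h : V → ℕ, ∑ u ∈ U, ∑ t ∈ univ.erase (0 : ZMod p), h (t • u) =
      (univ.erase (0 : ZMod p)).card * ∑ u ∈ U, h u := by
    intro h
    rw [Finset.sum_comm, Finset.sum_congr rfl (hinv h), Finset.sum_const, smul_eq_mul]
  have h1 : ∑ u ∈ U, ∑ t ∈ univ.erase (0 : ZMod p), f (t • u) ≤
      ∑ u ∈ U, ∑ t ∈ univ.erase (0 : ZMod p), g (t • u) :=
    Finset.sum_le_sum (fun u hu => hline u (hU0 u hu))
  rw [hdouble, hdouble] at h1
  have hpos : 0 < (univ.erase (0 : ZMod p)).card :=
    card_pos.2 ⟨1, mem_erase.2 ⟨one_ne_zero, mem_univ _⟩⟩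
  have h2 : ∑ u ∈ U, f u ≤ ∑ u ∈ U, g u := Nat.le_of_mul_le_mul_left h1 hpos
  have h3 : ∑ x ∈ S.erase 0, f x ≤ ∑ u ∈ U, f u :=
    Finset.sum_le_sum_of_subset hSU
  have h4 : ∑ u ∈ U, g u = ∑ x ∈ S.erase 0, g x := by
    symm
    apply Finset.sum_subset hSU
    intro x hx hx'
    apply hg
    intro hxS
    exact hx' (mem_erase.2 ⟨hU0 x hx, hxS⟩)
  omega

end scaling

section fibres

variable {p : ℕ} [Fact p.Prime] {V : Type*} [AddCommGroup V] [Module (ZMod p) V] [DecidableEq V]

/-- Cauchy-Davenport in a vector space over `ZMod p`. -/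
lemma cd (X Y : Finset V) (hX : X.Nonempty) (hY : Y.Nonempty) :
    p ≤ (X + Y).card ∨ X.card + Y.card ≤ (X + Y).card + 1 := by
  have h1 := cauchy_davenport_minOrder_add hX hY
  have h2 : (p : ℕ∞) ≤ AddMonoid.minOrder V := by
    rw [AddMonoid.le_minOrder]
    intro a ha _
    have h3 : addOrderOf a ∣ p := by
      rw [addOrderOf_dvd_iff_nsmul_eq_zero]
      rw [← Nat.cast_smul_eq_nsmul (ZMod p), ZMod.natCast_self, zero_smul]
    rcases (Nat.dvd_prime (Fact.out : p.Prime)).1 h3 with h4 | h4
    · rw [AddMonoid.addOrderOf_eq_one_iff] at h4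
      exact absurd h4 ha
    · rw [h4]
  have h3 : min (p : ℕ∞) ((X.card + Y.card - 1 : ℕ) : ℕ∞) ≤ ((X + Y).card : ℕ∞) :=
    (min_le_min_right _ h2).trans h1
  rcases le_total p (X.card + Y.card - 1) with h5 | h5
  · left
    rw [min_eq_left (by exact_mod_cast h5)] at h3
    exact_mod_cast h3
  · right
    rw [min_eq_right (by exact_mod_cast h5)] at h3
    have h4 : X.card + Y.card - 1 ≤ (X + Y).card := by exact_mod_cast h3
    omega

/-- Elements of `A` in the coset `g + ⟨u⟩`, as a subset of `ZMod p`. -/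
def pull (p : ℕ) [Fact p.Prime] {V : Type*} [AddCommGroup V] [Module (ZMod p) V] [DecidableEq V]
    (g u : V) (A : Finset V) : Finset (ZMod p) := univ.filter (fun t => g + t • u ∈ A)

lemma mem_pull (g u : V) (A : Finset V) (t : ZMod p) : t ∈ pull p g u A ↔ g + t • u ∈ A := by
  unfold pull
  rw [mem_filter]
  exact ⟨fun h => h.2, fun h => ⟨mem_univ _, h⟩⟩

open scoped Classical in
lemma card_pull (g u : V) (hu : u ≠ 0) (A : Finset V) :
    (pull p g u A).card = (A.filter (fun a => a - g ∈ Submodule.span (ZMod p) {u})).card := by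
  have : (pull p g u A).image (fun t => g + t • u) =
      A.filter (fun a => a - g ∈ Submodule.span (ZMod p) {u}) := by
    ext x
    rw [mem_image, mem_filter]
    constructor
    · rintro ⟨t, ht, rfl⟩
      rw [mem_pull] at ht
      refine ⟨ht, ?_⟩
      rw [add_sub_cancel_left, Submodule.mem_span_singleton]
      exact ⟨t, rfl⟩
    · rintro ⟨hx, hx'⟩
      rw [Submodule.mem_span_singleton] at hx'
      obtain ⟨t, ht⟩ := hx'
      refine ⟨t, ?_, ?_⟩
      · rw [mem_pull, ht]; simpa using hx
      · simp only [ht]; abel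
  rw [← this, card_image_of_injective]
  intro s t hst
  exact smul_left_injective _ hu (add_left_cancel hst)

lemma rs_pull (g g' u : V) (hu : u ≠ 0) (A B : Finset V) (hg : g = g') :
    (rs (pull p g u A) (pull p g' u B)).card ≤ (pull p (g + g') u (rs A B)).card := by
  subst hg
  apply card_le_card
  intro x hx
  rw [mem_rs] at hx
  obtain ⟨s, hs, t, ht, hne, rfl⟩ := hx
  rw [mem_pull] at hs ht ⊢
  rw [mem_rs]
  refine ⟨_, hs, _, ht, ?_, ?_⟩
  · intro h
    exact hne (smul_left_injective _ hu (add_left_cancel h))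
  · rw [add_smul]; abel

lemma zero_notMem_rs {G : Type*} [AddCommGroup G] [DecidableEq G] {A B : Finset G} (h : Adm A B) :
    (0 : G) ∉ rs A B := by
  intro h0
  rw [mem_rs] at h0
  obtain ⟨a, ha, b, hb, hne, hab⟩ := h0
  have hb' : b = -a := (neg_eq_of_add_eq_zero_right hab).symm
  rw [hb'] at hb hne
  have := h.uniq a ha hb
  apply hne
  rw [this, neg_zero]

lemma adm_card {A B : Finset (ZMod p)} (h : Adm A B) : A.card + B.card ≤ p + 1 := by
  have h1 : (A ∩ B.image (fun b => -b)) ⊆ {0} := by
    intro x hx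
    rw [mem_inter, mem_image] at hx
    obtain ⟨hxA, b, hb, rfl⟩ := hx
    rw [mem_singleton]
    exact h.uniq _ hxA (by rw [neg_neg]; exact hb)
  have h2 := card_le_card h1
  rw [card_singleton] at h2
  have h3 := card_union_add_card_inter A (B.image (fun b => -b))
  rw [card_image_of_injective _ neg_injective] at h3
  have h4 := card_le_univ (A ∪ B.image (fun b => -b))
  rw [ZMod.card] at h4
  omega

lemma pull_adm {A B : Finset V} (h : Adm A B) (u : V) (hu : u ≠ 0) :
    Adm (pull p 0 u A) (pull p 0 u B) := by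
  refine ⟨?_, ?_, ?_⟩
  · rw [mem_pull, zero_smul, add_zero]; exact h.zA
  · rw [mem_pull, zero_smul, add_zero]; exact h.zB
  · intro t ht ht'
    rw [mem_pull, zero_add] at ht ht'
    rw [neg_smul] at ht'
    have := h.uniq _ ht ht'
    exact (smul_eq_zero.1 this).resolve_right hu

/-- Sums over the nonzero points of a line. -/
lemma sum_line (X : Finset V) (u : V) :
    ∑ t ∈ univ.erase (0 : ZMod p), (if t • u ∈ X then 1 else 0) + (if (0 : V) ∈ X then 1 else 0) =
      (pull p 0 u X).card := by
  have h1 : (pull p 0 u X).card = ∑ t : ZMod p, (if t • u ∈ X then 1 else 0) := by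
    unfold pull
    rw [Finset.card_filter]
    simp only [zero_add]
  rw [h1, ← Finset.add_sum_erase univ _ (mem_univ (0 : ZMod p)), zero_smul, add_comm]

/-- If no line is tight, the bound follows by averaging. -/
lemma no_tight (A B : Finset V) (h : Adm A B)
    (hT : ∀ u : V, u ≠ 0 → (pull p 0 u A).card + (pull p 0 u B).card ≤
      (pull p 0 u (rs A B)).card + 2) :
    A.card + B.card ≤ (rs A B).card + 3 := by
  have h0 := zero_notMem_rs h
  have h1 := scaling (p := p) (fun x : V => (if x ∈ A then 1 else 0) + (if x ∈ B then 1 else 0))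
    (fun x => if x ∈ rs A B then 1 else 0) (A ∪ B ∪ rs A B)
    (by
      intro x hx
      rw [mem_union, mem_union] at hx
      rw [if_neg]
      intro hx'
      exact hx (Or.inr hx'))
    (by
      intro u hu
      have h2 := hT u hu
      rw [← sum_line A u, ← sum_line B u, ← sum_line (rs A B) u, if_pos h.zA, if_pos h.zB,
        if_neg h0] at h2
      rw [sum_add_distrib]
      omega)
  have hcount : ∀ X : Finset V, X ⊆ A ∪ B ∪ rs A B →
      ∑ x ∈ (A ∪ B ∪ rs A B).erase 0, (if x ∈ X then 1 else 0) = (X.erase 0).card := by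
    intro X hX
    rw [← Finset.card_filter]
    congr 1
    ext x
    rw [mem_filter, mem_erase, mem_erase]
    constructor
    · rintro ⟨⟨h1, _⟩, h2⟩; exact ⟨h1, h2⟩
    · rintro ⟨h1, h2⟩; exact ⟨⟨h1, hX h2⟩, h2⟩
  rw [sum_add_distrib, hcount A (fun x hx => mem_union_left _ (mem_union_left _ hx)),
    hcount B (fun x hx => mem_union_left _ (mem_union_right _ hx)),
    hcount (rs A B) (fun x hx => mem_union_right _ hx), card_erase_of_mem h.zA,
    card_erase_of_mem h.zB, erase_eq_of_notMem h0] at h1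
  omega

section quot

variable {Q : Type*} [AddCommGroup Q] [Module (ZMod p) Q] [DecidableEq Q]

/-- Size of the fibre over `x`. -/
def fib (π : V →ₗ[ZMod p] Q) (A : Finset V) (x : Q) : ℕ := (A.filter (fun a => π a = x)).card

lemma fib_eq (π : V →ₗ[ZMod p] Q) (u : V) (hu : u ≠ 0)
    (hπ : LinearMap.ker π = Submodule.span (ZMod p) {u}) (A : Finset V) (a : V) :
    fib π A (π a) = (pull p a u A).card := by
  classical
  rw [card_pull a u hu]
  unfold fib
  congr 1
  ext x
  rw [mem_filter, mem_filter, ← hπ, LinearMap.mem_ker, map_sub, sub_eq_zero]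

lemma fib_pos {π : V →ₗ[ZMod p] Q} {A : Finset V} {x : Q} (h : 0 < fib π A x) :
    ∃ a ∈ A, π a = x := by
  unfold fib at h
  obtain ⟨a, ha⟩ := card_pos.1 h
  rw [mem_filter] at ha
  exact ⟨a, ha⟩

lemma fib_le (π : V →ₗ[ZMod p] Q) (u : V) (hu : u ≠ 0)
    (hπ : LinearMap.ker π = Submodule.span (ZMod p) {u}) (A : Finset V) (x : Q) :
    fib π A x ≤ p := by
  rcases Nat.eq_zero_or_pos (fib π A x) with h | h
  · rw [h]; exact Nat.zero_le _
  · obtain ⟨a, _, rfl⟩ := fib_pos h
    rw [fib_eq π u hu hπ A a]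
    have := card_le_univ (pull p a u A)
    rwa [ZMod.card] at this

lemma fib_add (π : V →ₗ[ZMod p] Q) (A B : Finset V) (x y : Q) (hxy : x ≠ y)
    (hx : 0 < fib π A x) (hy : 0 < fib π B y) :
    p ≤ fib π (rs A B) (x + y) ∨ fib π A x + fib π B y ≤ fib π (rs A B) (x + y) + 1 := by
  have hsub : (A.filter (fun a => π a = x)) + (B.filter (fun a => π a = y)) ⊆
      (rs A B).filter (fun a => π a = x + y) := by
    intro z hz
    rw [mem_add] at hz
    obtain ⟨a, ha, b, hb, rfl⟩ := hz
    rw [mem_filter] at ha hb ⊢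
    refine ⟨mem_rs.2 ⟨a, ha.1, b, hb.1, ?_, rfl⟩, by rw [map_add, ha.2, hb.2]⟩
    rintro rfl
    exact hxy (ha.2.symm.trans hb.2)
  have h1 := card_le_card hsub
  have h2 := cd (p := p) (A.filter (fun a => π a = x)) (B.filter (fun a => π a = y))
    (card_pos.1 hx) (card_pos.1 hy)
  unfold fib
  omega

lemma fib_double (hp : p ≠ 2) (π : V →ₗ[ZMod p] Q) (u : V) (hu : u ≠ 0)
    (hπ : LinearMap.ker π = Submodule.span (ZMod p) {u}) (A B : Finset V) (x : Q)
    (hx : 0 < fib π A x) (hy : 0 < fib π B x) :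
    p ≤ fib π (rs A B) (x + x) ∨ fib π A x + fib π B x ≤ fib π (rs A B) (x + x) + 2 +
      (if fib π A x = fib π B x then 1 else 0) := by
  obtain ⟨a, _, rfl⟩ := fib_pos hx
  rw [← map_add, fib_eq π u hu hπ, fib_eq π u hu hπ, fib_eq π u hu hπ]
  rw [fib_eq π u hu hπ] at hx hy
  have h1 := anr' p hp (pull p a u A) (pull p a u B) (card_pos.1 hx) (card_pos.1 hy)
  have h2 := rs_pull (p := p) a a u hu A B rfl
  omega

/-- The case of a tight line. -/
lemma tight (hp : p ≠ 2) (A B : Finset V) (h : Adm A B) (u : V) (hu : u ≠ 0)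
    (hT : (pull p 0 u (rs A B)).card + 3 ≤ (pull p 0 u A).card + (pull p 0 u B).card)
    (π : V →ₗ[ZMod p] Q) (hπ : LinearMap.ker π = Submodule.span (ZMod p) {u}) :
    A.card + B.card ≤ (rs A B).card + 3 := by
  classical
  have hp' : p.Prime := Fact.out
  have hodd : p % 2 = 1 := (hp'.eq_two_or_odd).resolve_left hp
  have hadm := pull_adm (p := p) h u hu
  have hz := zmod_case p _ _ hadm
  have hr := rs_pull (p := p) 0 0 u hu A B rfl
  rw [add_zero] at hr
  have hc := adm_card hadm
  have hA1 : 1 ≤ (pull p 0 u A).card := card_pos.2 ⟨0, hadm.zA⟩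
  have hB1 : 1 ≤ (pull p 0 u B).card := card_pos.2 ⟨0, hadm.zB⟩
  have heq : (pull p 0 u A).card = (pull p 0 u B).card := by
    by_contra hne
    have := anr p _ _ hA1 hB1 hne (by omega)
    omega
  obtain ⟨n, hn⟩ : ∃ n, n = (pull p 0 u A).card := ⟨_, rfl⟩
  have hA0 : fib π A 0 = n := by
    have := fib_eq π u hu hπ A 0
    rwa [map_zero, ← hn] at this
  have hB0 : fib π B 0 = n := by
    have := fib_eq π u hu hπ B 0
    rwa [map_zero, ← heq, ← hn] at this
  have hC0 : fib π (rs A B) 0 + 3 = 2 * n := by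
    have := fib_eq π u hu hπ (rs A B) 0
    rw [map_zero] at this
    omega
  have hn2 : 2 ≤ n := by omega
  have hnp : 2 * n ≤ p + 1 := by omega
  set S := (A ∪ B ∪ rs A B).image π with hS
  have h1 := scaling (p := p) (fun x : Q => fib π A x + fib π B x) (fun x => fib π (rs A B) x) S
    (by
      intro x hx
      by_contra hne
      apply hx
      obtain ⟨a, ha, rfl⟩ := fib_pos (Nat.pos_of_ne_zero hne)
      rw [hS, mem_image]
      exact ⟨a, mem_union_right _ ha, rfl⟩)
    (by
      intro x hx
      have hsm : ∀ i j : ZMod p, i ≠ j → i • x ≠ j • x :=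
        fun i j hij h => hij (smul_left_injective _ hx h)
      refine star (q := p) (p := p) (α := fun t => fib π A (t • x)) (β := fun t => fib π B (t • x))
        (γ := fun t => fib π (rs A B) (t • x)) hp hn2 hnp ⟨?_, ?_⟩ ?_ ?_ ?_ ?_ ?_
      · intro i j hij hi hj _
        simp only [add_smul]
        exact fib_add π A B (i • x) (j • x) (hsm i j hij) hi hj
      · intro i _ hi hj
        simp only [add_smul]
        exact fib_double hp π u hu hπ A B (i • x) hi hj
      · simp only [zero_smul]; exact hA0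
      · simp only [zero_smul]; exact hB0
      · intro i; exact fib_le π u hu hπ A _
      · intro i; exact fib_le π u hu hπ B _
      · intro i hi hi1 hi2
        have hne : i ≠ -i := by
          intro hcon
          apply hi
          have h2 : i + i = 0 + 0 := by
            nth_rewrite 2 [hcon]
            rw [add_neg_cancel, add_zero]
          exact two_inj hp h2
        have h3 := fib_add π A B (i • x) ((-i) • x) (hsm _ _ hne) hi1 hi2
        rw [← add_smul, add_neg_cancel, zero_smul] at h3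
        omega)
  have hcount : ∀ X : Finset V, X ⊆ A ∪ B ∪ rs A B →
      X.card = fib π X 0 + ∑ x ∈ S.erase 0, fib π X x := by
    intro X hX
    have h0S : (0 : Q) ∈ S := by
      rw [hS, mem_image]
      exact ⟨0, mem_union_left _ (mem_union_left _ h.zA), map_zero π⟩
    rw [Finset.add_sum_erase S _ h0S]
    apply card_eq_sum_card_fiberwise
    intro a ha
    rw [hS, mem_coe, mem_image]
    exact ⟨a, hX ha, rfl⟩
  have hcA := hcount A (fun x hx => mem_union_left _ (mem_union_left _ hx))
  have hcB := hcount B (fun x hx => mem_union_left _ (mem_union_right _ hx))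
  have hcC := hcount (rs A B) (fun x hx => mem_union_right _ hx)
  rw [sum_add_distrib] at h1
  omega

end quot

/-- The inequality in vector spaces over `ZMod p`. -/
theorem elem_case (hp : p ≠ 2) (A B : Finset V) (h : Adm A B) :
    A.card + B.card ≤ (rs A B).card + 3 := by
  classical
  by_cases hT : ∀ u : V, u ≠ 0 → (pull p 0 u A).card + (pull p 0 u B).card ≤
      (pull p 0 u (rs A B)).card + 2
  · exact no_tight A B h hT
  · push Not at hT
    obtain ⟨u, hu, hT⟩ := hT
    exact tight hp A B h u hu (by omega) (Submodule.mkQ (Submodule.span (ZMod p) {u}))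
      (Submodule.ker_mkQ _)

end fibres

/-- Groups whose elements of finite order are killed by a fixed prime. -/
theorem prime_exponent {G : Type*} [AddCommGroup G] (p : ℕ) (hp : p.Prime)
    (hG : ∀ g : G, IsOfFinAddOrder g → p • g = 0) : RestrictedScherk G := by
  classical
  haveI : Fact p.Prime := ⟨hp⟩
  by_cases h2 : p = 2
  · subst h2
    apply elementary
    intro g hg
    rw [← two_nsmul]
    exact hG g hg
  · rw [reduction]
    have hT : ∀ x : AddCommGroup.torsion G, p • x = 0 := by
      rintro ⟨x, hx⟩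
      apply Subtype.ext
      exact hG x hx
    letI : Module (ZMod p) (AddCommGroup.torsion G) := AddCommGroup.zmodModule hT
    rw [restrictedScherk_iff]
    intro A B h
    exact elem_case (p := p) h2 A B h


end Pool.Agent.Work.MP_59976d_co
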