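import Pool.Agent.Work.MP_59976d_co.ZModCase

/-!
A numerical inequality for the sizes of the fibres of a restricted sumset over a cyclic group of
prime order.
-/

namespace Pool.Agent.Work.MP_59976d_co

open Finset
open scoped Pointwise

/-- Counting in an interval. -/
lemma cntI (a b lo hi : ℕ) :
    ∑ k ∈ Icc a b, (if lo ≤ k ∧ k ≤ hi then 1 else 0) = (min b hi + 1) - max a lo := by
  rw [← Finset.sum_filter, Finset.sum_const, smul_eq_mul, mul_one]
  have : (Icc a b).filter (fun k => lo ≤ k ∧ k ≤ hi) = Icc (max a lo) (min b hi) := by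
    ext k
    simp only [mem_filter, mem_Icc]
    omega
  rw [this, Nat.card_Icc]

section cell

variable {q : ℕ} [Fact q.Prime]

/-- Number of nonzero points where `f` is at least `k`. -/
def lev (f : ZMod q → ℕ) (k : ℕ) : ℕ := (univ.filter (fun i => i ≠ 0 ∧ k ≤ f i)).card

/-- Number of lost points. -/
def lost (f g : ZMod q → ℕ) (k l : ℕ) : ℕ :=
  (univ.filter (fun i => i ≠ 0 ∧ k ≤ f i ∧ l ≤ g i ∧
    f i + g i ≤ k + l + (if f i = g i then 1 else 0))).card

lemma two_inj (hq : q ≠ 2) {i j : ZMod q} (h : i + i = j + j) : i = j := by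
  have hq' : q.Prime := Fact.out
  have h2 : (2 : ZMod q) ≠ 0 := by
    intro h2
    have : ((2 : ℕ) : ZMod q) = 0 := by exact_mod_cast h2
    rw [ZMod.natCast_eq_zero_iff] at this
    exact hq ((Nat.prime_dvd_prime_iff_eq hq' Nat.prime_two).1 this)
  apply mul_left_cancel₀ h2
  linear_combination h

/-- If the two level sets are large, every element is a sum of two different elements. -/
lemma cell_sat (hq : q ≠ 2) (X Y : Finset (ZMod q)) (hXY : q + 2 ≤ X.card + Y.card) (x : ZMod q) :
    ∃ i ∈ X, ∃ j ∈ Y, i ≠ j ∧ i + j = x := by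
  set Z := Y.image (fun j => x - j) with hZ
  have hZc : Z.card = Y.card := card_image_of_injective _ (fun a b h => by simpa using h)
  have h1 := card_union_add_card_inter X Z
  have h2 : (X ∪ Z).card ≤ q := by
    have := card_le_univ (X ∪ Z)
    rwa [ZMod.card] at this
  have h3 : 1 < (X ∩ Z).card := by omega
  obtain ⟨i, hi, i', hi', hne⟩ := one_lt_card.1 h3
  rw [mem_inter, hZ, mem_image] at hi hi'
  obtain ⟨hiX, j, hj, hij⟩ := hi
  obtain ⟨hiX', j', hj', hij'⟩ := hi'
  have e1 : i + j = x := by rw [← hij]; ring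
  have e2 : i' + j' = x := by rw [← hij']; ring
  by_cases h : i = j
  · refine ⟨i', hiX', j', hj', ?_, e2⟩
    intro h'
    apply hne
    apply two_inj hq
    rw [← h] at e1; rw [← h'] at e2
    rw [e1, e2]
  · exact ⟨i, hiX, j, hj, h, e1⟩

variable (α β γ : ZMod q → ℕ)

/-- Hypotheses on the sizes of the fibres. -/
structure Fib (p : ℕ) : Prop where
  hne : ∀ i j, i ≠ j → 0 < α i → 0 < β j → i + j ≠ 0 → p ≤ γ (i + j) ∨ α i + β j ≤ γ (i + j) + 1
  heq : ∀ i, i ≠ 0 → 0 < α i → 0 < β i →
    p ≤ γ (i + i) ∨ α i + β i ≤ γ (i + i) + 2 + (if α i = β i then 1 else 0)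

variable {α β γ} {p : ℕ}

lemma cell_sat' (hq : q ≠ 2) (h : Fib α β γ p) (k l : ℕ) (hk : 1 ≤ k) (hl : 1 ≤ l)
    (hp : k + l ≤ p + 1)
    (hs : q + 2 ≤ (univ.filter (fun i => k ≤ α i)).card + (univ.filter (fun i => l ≤ β i)).card) :
    lev γ (k + l - 1) = q - 1 := by
  unfold lev
  have : (univ.filter (fun i : ZMod q => i ≠ 0 ∧ k + l - 1 ≤ γ i)) = univ.erase 0 := by
    ext x
    simp only [mem_filter, mem_univ, true_and, mem_erase, and_true]
    constructor
    · exact fun h => h.1
    · intro hx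
      refine ⟨hx, ?_⟩
      obtain ⟨i, hi, j, hj, hij, rfl⟩ := cell_sat hq _ _ hs x
      rw [mem_filter] at hi hj
      rcases h.hne i j hij (by omega) (by omega) hx with h1 | h1 <;> omega
  rw [this, card_erase_of_mem (mem_univ _), card_univ, ZMod.card]

lemma cell_unsat (hq : q ≠ 2) (h : Fib α β γ p) (k l : ℕ) (hk : 1 ≤ k) (hl : 1 ≤ l)
    (hp : k + l ≤ p + 1)
    (hX : (univ.filter (fun i => k ≤ α i)).Nonempty) (hY : (univ.filter (fun i => l ≤ β i)).Nonempty)
    (hs : (univ.filter (fun i => k ≤ α i)).card + (univ.filter (fun i => l ≤ β i)).card ≤ q + 1) :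
    (univ.filter (fun i => k ≤ α i)).card + (univ.filter (fun i => l ≤ β i)).card ≤
      1 + (if ∃ i, k ≤ α i ∧ l ≤ β (-i) then 1 else 0) + lev γ (k + l - 1) + lost α β k l := by
  classical
  have hcd := ZMod.cauchy_davenport (Fact.out : q.Prime) hX hY
  rw [min_eq_right (by omega)] at hcd
  set X := univ.filter (fun i => k ≤ α i) with hXdef
  set Y := univ.filter (fun i => l ≤ β i) with hYdef
  have hsub : X + Y ⊆ (if ∃ i, k ≤ α i ∧ l ≤ β (-i) then {0} else ∅) ∪
      (univ.filter (fun i : ZMod q => i ≠ 0 ∧ k + l - 1 ≤ γ i)) ∪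
      (univ.filter (fun i => i ≠ 0 ∧ k ≤ α i ∧ l ≤ β i ∧
        α i + β i ≤ k + l + (if α i = β i then 1 else 0))).image (fun i => i + i) := by
    intro x hx
    rw [mem_add] at hx
    obtain ⟨i, hi, j, hj, rfl⟩ := hx
    rw [hXdef, mem_filter] at hi
    rw [hYdef, mem_filter] at hj
    by_cases hx0 : i + j = 0
    · rw [mem_union, mem_union]
      left; left
      rw [if_pos, hx0]
      · exact mem_singleton_self _
      · refine ⟨i, hi.2, ?_⟩
        rw [neg_eq_of_add_eq_zero_right hx0]; exact hj.2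
    · by_cases hij : i = j
      · subst hij
        have hi0 : i ≠ 0 := by
          rintro rfl; exact hx0 (add_zero 0)
        by_cases hl' : α i + β i ≤ k + l + (if α i = β i then 1 else 0)
        · rw [mem_union]
          right
          rw [mem_image]
          refine ⟨i, ?_, rfl⟩
          rw [mem_filter]
          exact ⟨mem_univ _, hi0, hi.2, hj.2, hl'⟩
        · rw [mem_union, mem_union]
          left; right
          rw [mem_filter]
          refine ⟨mem_univ _, hx0, ?_⟩
          rcases h.heq i hi0 (by omega) (by omega) with h1 | h1 <;> omega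
      · rw [mem_union, mem_union]
        left; right
        rw [mem_filter]
        refine ⟨mem_univ _, hx0, ?_⟩
        rcases h.hne i j hij (by omega) (by omega) hx0 with h1 | h1 <;> omega
  have h1 := card_le_card hsub
  have h2 := card_union_le ((if ∃ i, k ≤ α i ∧ l ≤ β (-i) then {0} else ∅) ∪
      (univ.filter (fun i : ZMod q => i ≠ 0 ∧ k + l - 1 ≤ γ i)))
      ((univ.filter (fun i => i ≠ 0 ∧ k ≤ α i ∧ l ≤ β i ∧
        α i + β i ≤ k + l + (if α i = β i then 1 else 0))).image (fun i => i + i))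
  have h3 := card_union_le (if ∃ i, k ≤ α i ∧ l ≤ β (-i) then ({0} : Finset (ZMod q)) else ∅)
      (univ.filter (fun i : ZMod q => i ≠ 0 ∧ k + l - 1 ≤ γ i))
  have h4 : (if ∃ i, k ≤ α i ∧ l ≤ β (-i) then ({0} : Finset (ZMod q)) else ∅).card =
      (if ∃ i, k ≤ α i ∧ l ≤ β (-i) then 1 else 0) := by
    split_ifs <;> simp
  have h5 : ((univ.filter (fun i => i ≠ 0 ∧ k ≤ α i ∧ l ≤ β i ∧
        α i + β i ≤ k + l + (if α i = β i then 1 else 0))).image (fun i => i + i)).card =
      lost α β k l := by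
    rw [card_image_of_injective _ (fun x y hxy => two_inj hq hxy)]
    rfl
  unfold lev
  omega

lemma card_lev (f : ZMod q → ℕ) (k : ℕ) :
    (univ.filter (fun i => k ≤ f i)).card = lev f k + (if k ≤ f 0 then 1 else 0) := by
  classical
  unfold lev
  by_cases h : k ≤ f 0
  · have : univ.filter (fun i => k ≤ f i) =
        insert 0 (univ.filter (fun i => i ≠ 0 ∧ k ≤ f i)) := by
      ext i
      simp only [mem_filter, mem_univ, true_and, mem_insert]
      constructor
      · intro hi
        by_cases hi0 : i = 0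
        · exact Or.inl hi0
        · exact Or.inr ⟨hi0, hi⟩
      · rintro (rfl | hi)
        · exact h
        · exact hi.2
    rw [this, card_insert_of_notMem (by simp), if_pos h]
  · have : univ.filter (fun i => k ≤ f i) = univ.filter (fun i => i ≠ 0 ∧ k ≤ f i) := by
      ext i
      simp only [mem_filter, mem_univ, true_and]
      constructor
      · intro hi
        refine ⟨?_, hi⟩
        rintro rfl
        exact h hi
      · exact fun hi => hi.2
    rw [this, if_neg h, add_zero]

lemma lev_disj (n a b : ℕ) (ha : 1 ≤ a) (hb : 1 ≤ b) (hab : 2 * n ≤ a + b + 1)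
    (hopp : ∀ i, i ≠ 0 → 0 < α i → 0 < β (-i) → α i + β (-i) + 2 ≤ 2 * n) :
    lev α a + lev β b ≤ q - 1 := by
  classical
  have h1 : ((univ.filter (fun i : ZMod q => i ≠ 0 ∧ b ≤ β i)).image (fun i => -i)).card =
      lev β b := card_image_of_injective _ neg_injective
  have hd : Disjoint (univ.filter (fun i : ZMod q => i ≠ 0 ∧ a ≤ α i))
      ((univ.filter (fun i : ZMod q => i ≠ 0 ∧ b ≤ β i)).image (fun i => -i)) := by
    rw [disjoint_left]
    intro i hi hi'
    rw [mem_filter] at hi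
    rw [mem_image] at hi'
    obtain ⟨j, hj, rfl⟩ := hi'
    rw [mem_filter] at hj
    have := hopp (-j) hi.2.1 (by omega) (by rw [neg_neg]; omega)
    rw [neg_neg] at this
    omega
  have h2 : (univ.filter (fun i : ZMod q => i ≠ 0 ∧ a ≤ α i)) ∪
      ((univ.filter (fun i : ZMod q => i ≠ 0 ∧ b ≤ β i)).image (fun i => -i)) ⊆
      univ.erase 0 := by
    intro i hi
    rw [mem_union, mem_filter, mem_image] at hi
    rw [mem_erase]
    refine ⟨?_, mem_univ _⟩
    rcases hi with hi | ⟨j, hj, rfl⟩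
    · exact hi.2.1
    · rw [mem_filter] at hj
      exact neg_ne_zero.2 hj.2.1
  have h3 := card_le_card h2
  rw [card_union_of_disjoint hd, h1, card_erase_of_mem (mem_univ _), card_univ, ZMod.card] at h3
  exact h3

lemma lost_le_lev (k l m : ℕ) (hlm : ∀ i, k ≤ α i → l ≤ β i →
      α i + β i ≤ k + l + (if α i = β i then 1 else 0) → α i < m) (hkm : k ≤ m) :
    lost α β k l + lev α m ≤ lev α k := by
  classical
  unfold lost lev
  rw [← card_union_of_disjoint]
  · apply card_le_card
    intro i hi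
    rw [mem_union, mem_filter, mem_filter] at hi
    rw [mem_filter]
    rcases hi with hi | hi
    · exact ⟨mem_univ _, hi.2.1, hi.2.2.1⟩
    · exact ⟨mem_univ _, hi.2.1, hkm.trans hi.2.2⟩
  · rw [disjoint_left]
    intro i hi hi'
    rw [mem_filter] at hi hi'
    have := hlm i hi.2.2.1 hi.2.2.2.1 hi.2.2.2.2
    omega

lemma lost_le_lev' (k l m : ℕ) (hlm : ∀ i, k ≤ α i → l ≤ β i →
      α i + β i ≤ k + l + (if α i = β i then 1 else 0) → β i < m) (hkm : l ≤ m) :
    lost α β k l + lev β m ≤ lev β l := by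
  classical
  unfold lost lev
  rw [← card_union_of_disjoint]
  · apply card_le_card
    intro i hi
    rw [mem_union, mem_filter, mem_filter] at hi
    rw [mem_filter]
    rcases hi with hi | hi
    · exact ⟨mem_univ _, hi.2.1, hi.2.2.2.1⟩
    · exact ⟨mem_univ _, hi.2.1, hkm.trans hi.2.2⟩
  · rw [disjoint_left]
    intro i hi hi'
    rw [mem_filter] at hi hi'
    have := hlm i hi.2.2.1 hi.2.2.2.1 hi.2.2.2.2
    omega

section star

variable {n : ℕ} (hq : q ≠ 2) (hn : 2 ≤ n) (hnp : 2 * n ≤ p + 1) (h : Fib α β γ p)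
  (hα0 : α 0 = n) (hβ0 : β 0 = n)
  (hopp : ∀ i, i ≠ 0 → 0 < α i → 0 < β (-i) → α i + β (-i) + 2 ≤ 2 * n)

include hq hn hnp h hα0 hβ0 hopp

lemma bound1 (s : ℕ) (hs1 : 1 ≤ s) (hs : s + 1 ≤ n) :
    lev β s + lev α (2 * n - 1 - s) ≤ lev γ s := by
  have hX : (univ.filter (fun i => 1 ≤ α i)).Nonempty :=
    ⟨0, by rw [mem_filter]; exact ⟨mem_univ _, by omega⟩⟩
  have hY : (univ.filter (fun i => s ≤ β i)).Nonempty :=
    ⟨0, by rw [mem_filter]; exact ⟨mem_univ _, by omega⟩⟩
  have hls : 1 + s - 1 = s := by omega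
  rcases Nat.lt_or_ge (q + 1) ((univ.filter (fun i => 1 ≤ α i)).card +
    (univ.filter (fun i => s ≤ β i)).card) with hc | hc
  · have h1 := cell_sat' hq h 1 s le_rfl hs1 (by omega) hc
    have h2 := lev_disj (α := α) (β := β) n (2 * n - 1 - s) s (by omega) hs1 (by omega) hopp
    rw [hls] at h1
    omega
  · have h1 := cell_unsat hq h 1 s le_rfl hs1 (by omega) hX hY hc
    rw [card_lev, card_lev, if_pos (by omega), if_pos (by omega), hls] at h1
    have h2 := lost_le_lev (α := α) (β := β) 1 s (2 * n - 1 - s) (by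
      intro i h1 h2 h3
      split_ifs at h3 <;> omega) (by omega)
    split_ifs at h1 <;> omega

lemma bound2 (k : ℕ) (hk1 : 1 ≤ k) (hk : k + 2 ≤ n) :
    lev α k + lev β (2 * n - 1 - k) ≤ lev γ (n - 1 + k) := by
  have hX : (univ.filter (fun i => k ≤ α i)).Nonempty :=
    ⟨0, by rw [mem_filter]; exact ⟨mem_univ _, by omega⟩⟩
  have hY : (univ.filter (fun i => n ≤ β i)).Nonempty :=
    ⟨0, by rw [mem_filter]; exact ⟨mem_univ _, by omega⟩⟩
  have hls : k + n - 1 = n - 1 + k := by omega
  rcases Nat.lt_or_ge (q + 1) ((univ.filter (fun i => k ≤ α i)).card +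
    (univ.filter (fun i => n ≤ β i)).card) with hc | hc
  · have h1 := cell_sat' hq h k n hk1 (by omega) (by omega) hc
    have h2 := lev_disj (α := α) (β := β) n k (2 * n - 1 - k) hk1 (by omega) (by omega) hopp
    rw [hls] at h1
    omega
  · have h1 := cell_unsat hq h k n hk1 (by omega) (by omega) hX hY hc
    rw [card_lev, card_lev, if_pos (by omega), if_pos (by omega), hls] at h1
    have h2 := lost_le_lev' (α := α) (β := β) k n (2 * n - 1 - k) (by
      intro i h1 h2 h3
      split_ifs at h3 <;> omega) (by omega)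
    split_ifs at h1 <;> omega

lemma bound3 (k : ℕ) (hk1 : n ≤ k + 1) (hk : k + n ≤ p + 1) (hX : ∃ i, k ≤ α i) :
    lev α k + lev β n ≤ lev γ (n - 1 + k) + lost α β k n := by
  have hX : (univ.filter (fun i => k ≤ α i)).Nonempty := by
    obtain ⟨i, hi⟩ := hX
    exact ⟨i, by rw [mem_filter]; exact ⟨mem_univ _, hi⟩⟩
  have hY : (univ.filter (fun i => n ≤ β i)).Nonempty :=
    ⟨0, by rw [mem_filter]; exact ⟨mem_univ _, by omega⟩⟩
  have hls : k + n - 1 = n - 1 + k := by omega
  have hd := lev_disj (α := α) (β := β) n k n (by omega) (by omega) (by omega) hopp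
  have hq' : 2 ≤ q := (Fact.out : q.Prime).two_le
  have hc : (univ.filter (fun i => k ≤ α i)).card +
    (univ.filter (fun i => n ≤ β i)).card ≤ q + 1 := by
    rw [card_lev, card_lev]
    split_ifs <;> omega
  have h1 := cell_unsat hq h k n (by omega) (by omega) (by omega) hX hY hc
  rw [card_lev, card_lev, hls] at h1
  by_cases hkn : k ≤ n
  · rw [if_pos (by omega), if_pos (by omega)] at h1
    split_ifs at h1 <;> omega
  · rw [if_neg (by omega), if_pos (by omega)] at h1
    rw [if_neg] at h1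
    · omega
    · rintro ⟨i, hi1, hi2⟩
      by_cases hi0 : i = 0
      · subst hi0; omega
      · have := hopp i hi0 (by omega) (by omega)
        omega

lemma bound4 (k l : ℕ) (hk : n ≤ k) (hl : n < l) (hkl : k + l ≤ p + 1) (hX : ∃ i, k ≤ α i)
    (hY : ∃ i, l ≤ β i) :
    lev β l ≤ lev γ (k - 1 + l) + lost α β k l := by
  have hX : (univ.filter (fun i => k ≤ α i)).Nonempty := by
    obtain ⟨i, hi⟩ := hX
    exact ⟨i, by rw [mem_filter]; exact ⟨mem_univ _, hi⟩⟩
  have hY : (univ.filter (fun i => l ≤ β i)).Nonempty := by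
    obtain ⟨i, hi⟩ := hY
    exact ⟨i, by rw [mem_filter]; exact ⟨mem_univ _, hi⟩⟩
  have hls : k + l - 1 = k - 1 + l := by omega
  have hd := lev_disj (α := α) (β := β) n k l (by omega) (by omega) (by omega) hopp
  have hq' : 2 ≤ q := (Fact.out : q.Prime).two_le
  have hc : (univ.filter (fun i => k ≤ α i)).card +
    (univ.filter (fun i => l ≤ β i)).card ≤ q + 1 := by
    rw [card_lev, card_lev]
    split_ifs <;> omega
  have h1 := cell_unsat hq h k l (by omega) (by omega) (by omega) hX hY hc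
  have hX1 := card_pos.2 hX
  rw [card_lev] at hX1
  rw [card_lev, card_lev, hls] at h1
  rw [if_neg (show ¬ l ≤ β 0 by omega)] at h1
  have h0 : ¬ ∃ i, k ≤ α i ∧ l ≤ β (-i) := by
    rintro ⟨i, hi1, hi2⟩
    by_cases hi0 : i = 0
    · subst hi0
      rw [neg_zero] at hi2
      omega
    · have := hopp i hi0 (by omega) (by omega)
      omega
  rw [if_neg h0] at h1
  omega

end star

lemma sum_if_congr (a b lo hi : ℕ) (P : ℕ → Prop) [DecidablePred P]
    (hP : ∀ k, a ≤ k → k ≤ b → (P k ↔ lo ≤ k ∧ k ≤ hi)) :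
    ∑ k ∈ Icc a b, (if P k then 1 else 0) = (min b hi + 1) - max a lo := by
  rw [← cntI]
  apply Finset.sum_congr rfl
  intro k hk
  rw [mem_Icc] at hk
  simp only [hP k hk.1 hk.2]

lemma sum_const_if (a b : ℕ) (P : Prop) [Decidable P] :
    ∑ _k ∈ Icc a b, (if P then 1 else 0) = if P then b + 1 - a else 0 := by
  rw [Finset.sum_const, Nat.card_Icc, smul_eq_mul]
  split_ifs <;> simp

lemma lev_eq_sum (f : ZMod q → ℕ) (k : ℕ) :
    lev f k = ∑ i ∈ univ.erase (0 : ZMod q), (if k ≤ f i then 1 else 0) := by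
  classical
  unfold lev
  rw [← Finset.sum_filter, Finset.sum_const, smul_eq_mul, mul_one]
  congr 1
  ext i
  simp only [mem_filter, mem_univ, true_and, mem_erase, and_true]

lemma lost_eq_sum (f g : ZMod q → ℕ) (k l : ℕ) :
    lost f g k l = ∑ i ∈ univ.erase (0 : ZMod q), (if k ≤ f i ∧ l ≤ g i ∧
      f i + g i ≤ k + l + (if f i = g i then 1 else 0) then 1 else 0) := by
  classical
  unfold lost
  rw [← Finset.sum_filter, Finset.sum_const, smul_eq_mul, mul_one]
  congr 1
  ext i
  simp only [mem_filter, mem_univ, true_and, mem_erase, and_true]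

/-- Per element: the terms on the left. -/
def leftT (n K L a b : ℕ) : ℕ :=
  ∑ s ∈ Icc 1 (n - 1), ((if s ≤ b then 1 else 0) + (if 2 * n - 1 - s ≤ a then 1 else 0)) +
  ∑ k ∈ Icc 1 (n - 2), ((if k ≤ a then 1 else 0) + (if 2 * n - 1 - k ≤ b then 1 else 0)) +
  ∑ k ∈ Icc (n - 1) K, ((if k ≤ a then 1 else 0) + (if n ≤ b then 1 else 0)) +
  ∑ l ∈ Icc (n + 1) L, (if l ≤ b then 1 else 0)

/-- Per element: the terms of `γ`. -/
def gamT (n K L c : ℕ) : ℕ :=
  ∑ s ∈ Icc 1 (n - 1), (if s ≤ c then 1 else 0) +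
  ∑ k ∈ Icc 1 (n - 2), (if n - 1 + k ≤ c then 1 else 0) +
  ∑ k ∈ Icc (n - 1) K, (if n - 1 + k ≤ c then 1 else 0) +
  ∑ l ∈ Icc (n + 1) L, (if K - 1 + l ≤ c then 1 else 0)

/-- Per element: the lost terms. -/
def lostT (n K L a b : ℕ) : ℕ :=
  ∑ k ∈ Icc (n - 1) K, (if k ≤ a ∧ n ≤ b ∧ a + b ≤ k + n + (if a = b then 1 else 0) then 1 else 0) +
  ∑ l ∈ Icc (n + 1) L, (if K ≤ a ∧ l ≤ b ∧ a + b ≤ K + l + (if a = b then 1 else 0) then 1 else 0)

lemma gam_part (n K L c : ℕ) (hn : 2 ≤ n) (hK : n ≤ K) :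
    min (n - 1) c + 1 - max 1 0 + (min (n - 2) (c - (n - 1)) + 1 - max 1 0) +
      (min K (c - (n - 1)) + 1 - max (n - 1) 0) + (min L (c - (K - 1)) + 1 - max (n + 1) 0) ≤ c := by
  simp only [min_def, max_def]
  split_ifs <;> omega

lemma gamT_le (n K L c : ℕ) (hn : 2 ≤ n) (hK : n ≤ K) : gamT n K L c ≤ c := by
  unfold gamT
  rw [sum_if_congr 1 (n - 1) 0 c _ (fun k _ _ => by omega),
    sum_if_congr 1 (n - 2) 0 (c - (n - 1)) _ (fun k _ _ => by omega),
    sum_if_congr (n - 1) K 0 (c - (n - 1)) _ (fun k _ _ => by omega),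
    sum_if_congr (n + 1) L 0 (c - (K - 1)) _ (fun k _ _ => by omega)]
  exact gam_part n K L c hn hK

lemma A_part (n K a : ℕ) (hn : 2 ≤ n) (hK : n ≤ K) :
    (min (n - 1) (n - 1) + 1 - max 1 (2 * n - 1 - a)) + (min (n - 2) a + 1 - max 1 0) +
      (min K a + 1 - max (n - 1) 0) = min a K + (min a (2 * n - 2) - (n - 1)) := by
  simp only [min_def, max_def]
  split_ifs <;> omega

lemma B_part (n L b : ℕ) (hn : 2 ≤ n) :
    (min (n - 1) b + 1 - max 1 0) + (min (n - 2) (n - 2) + 1 - max 1 (2 * n - 1 - b)) +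
      (min L b + 1 - max (n + 1) 0) =
      min b (n - 1) + (min b (2 * n - 2) - n) + (min b L - n) := by
  simp only [min_def, max_def]
  split_ifs <;> omega

lemma leftT_eq (n K L a b : ℕ) (hn : 2 ≤ n) (hK : n ≤ K) :
    leftT n K L a b = min a K + (min a (2 * n - 2) - (n - 1)) + min b (n - 1) +
      (min b (2 * n - 2) - n) + (min b L - n) + (if n ≤ b then K + 2 - n else 0) := by
  unfold leftT
  rw [sum_add_distrib, sum_add_distrib, sum_add_distrib]
  have hA := A_part n K a hn hK
  have hB := B_part n L b hn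
  have hC : K + 1 - (n - 1) = K + 2 - n := by omega
  rw [sum_if_congr 1 (n - 1) 0 b _ (fun k _ _ => by omega),
    sum_if_congr 1 (n - 1) (2 * n - 1 - a) (n - 1) _ (fun k _ _ => by omega),
    sum_if_congr 1 (n - 2) 0 a _ (fun k _ _ => by omega),
    sum_if_congr 1 (n - 2) (2 * n - 1 - b) (n - 2) _ (fun k _ _ => by omega),
    sum_if_congr (n - 1) K 0 a _ (fun k _ _ => by omega),
    sum_const_if,
    sum_if_congr (n + 1) L 0 b _ (fun k _ _ => by omega), hC]
  linarith

lemma lostT_le (n K L a b : ℕ) :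
    lostT n K L a b ≤
      (if n ≤ b then min K a + 1 - max (n - 1) (a + b - n - (if a = b then 1 else 0)) else 0)
      + (if K ≤ a then min L b + 1 - max (n + 1) (a + b - K - (if a = b then 1 else 0)) else 0) := by
  unfold lostT
  apply add_le_add
  · by_cases hb : n ≤ b
    · rw [if_pos hb]
      rw [sum_if_congr (n - 1) K (a + b - n - (if a = b then 1 else 0)) a _
        (fun k _ _ => by omega)]
    · rw [if_neg hb]
      apply le_of_eq
      apply Finset.sum_eq_zero
      intro k _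
      rw [if_neg]
      rintro ⟨_, h, _⟩
      exact hb h
  · by_cases hb : K ≤ a
    · rw [if_pos hb]
      rw [sum_if_congr (n + 1) L (a + b - K - (if a = b then 1 else 0)) b _
        (fun k _ _ => by omega)]
    · rw [if_neg hb]
      apply le_of_eq
      apply Finset.sum_eq_zero
      intro k _
      rw [if_neg]
      rintro ⟨h, _⟩
      exact hb h

lemma fin1 (n p NA K a b : ℕ) (hn : 2 ≤ n) (hnp : 2 * n ≤ p + 1)
    (haN : a ≤ NA) (hNA : NA ≤ p) (hnA : n ≤ NA)
    (hK : K = min NA (p + 1 - n)) (hb : b < n) :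
    a + b ≤ min a K + (min a (2 * n - 2) - (n - 1)) + min b (n - 1) := by
  rcases le_total NA (p + 1 - n) with h | h
  · rw [min_eq_left h] at hK
    rw [min_eq_left (show a ≤ K by omega), min_eq_left (show b ≤ n - 1 by omega)]
    omega
  · rw [min_eq_right h] at hK
    rw [min_eq_left (show b ≤ n - 1 by omega)]
    rcases le_total a K with h1 | h1
    · rw [min_eq_left h1]; omega
    · rw [min_eq_right h1]
      rcases le_total a (2 * n - 2) with h2 | h2
      · rw [min_eq_left h2]; omega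
      · rw [min_eq_right h2]; omega

lemma fin2 (n p NA NB K L a b : ℕ) (hn : 2 ≤ n) (hnp : 2 * n ≤ p + 1)
    (haN : a ≤ NA) (hbN : b ≤ NB) (hNA : NA ≤ p) (hNB : NB ≤ p) (hnA : n ≤ NA) (hnB : n ≤ NB)
    (hK : K = min NA (p + 1 - n)) (hL : L = min NB (p + 1 - K)) (hb : n ≤ b) (hab : a ≠ b) :
    a + b + ((min K a + 1 - max (n - 1) (a + b - n)) +
      (if K ≤ a then min L b + 1 - max (n + 1) (a + b - K) else 0)) ≤
     min a K + (min a (2 * n - 2) - (n - 1)) + (n - 1) + (min b (2 * n - 2) - n) + (min b L - n)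
      + (K + 2 - n) := by
  obtain ⟨hK1, hK2, hK3⟩ : K ≤ NA ∧ K ≤ p + 1 - n ∧ (K = NA ∨ K = p + 1 - n) := by
    rw [hK]; omega
  obtain ⟨hL1, hL2, hL3⟩ : L ≤ NB ∧ L ≤ p + 1 - K ∧ (L = NB ∨ L = p + 1 - K) := by
    rw [hL]; omega
  clear hK hL
  have hKn : n ≤ K := by omega
  have hLn : n ≤ L := by omega
  rcases le_total a K with h1 | h1
  · rw [min_eq_left h1, min_eq_right h1]
    rcases le_total b L with h2 | h2
    · rw [min_eq_right h2, min_eq_left h2]
      rcases le_total b (2 * n - 2) with h3 | h3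
      · rw [min_eq_left h3]
        rcases le_total a (2 * n - 2) with h4 | h4
        · rw [min_eq_left h4]
          split_ifs <;> omega
        · rw [min_eq_right h4]
          split_ifs <;> omega
      · rw [min_eq_right h3]
        rcases le_total a (2 * n - 2) with h4 | h4
        · rw [min_eq_left h4]
          split_ifs <;> omega
        · rw [min_eq_right h4]
          split_ifs <;> omega
    · rw [min_eq_left h2, min_eq_right h2]
      rcases le_total b (2 * n - 2) with h3 | h3
      · rw [min_eq_left h3]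
        rcases le_total a (2 * n - 2) with h4 | h4
        · rw [min_eq_left h4]
          split_ifs <;> omega
        · rw [min_eq_right h4]
          split_ifs <;> omega
      · rw [min_eq_right h3]
        rcases le_total a (2 * n - 2) with h4 | h4
        · rw [min_eq_left h4]
          split_ifs <;> omega
        · rw [min_eq_right h4]
          split_ifs <;> omega
  · rw [min_eq_right h1, min_eq_left h1, if_pos h1]
    rcases le_total b L with h2 | h2
    · rw [min_eq_right h2, min_eq_left h2]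
      rcases le_total b (2 * n - 2) with h3 | h3
      · rw [min_eq_left h3]
        rcases le_total a (2 * n - 2) with h4 | h4
        · rw [min_eq_left h4]
          omega
        · rw [min_eq_right h4]
          omega
      · rw [min_eq_right h3]
        rcases le_total a (2 * n - 2) with h4 | h4
        · rw [min_eq_left h4]
          omega
        · rw [min_eq_right h4]
          omega
    · rw [min_eq_left h2, min_eq_right h2]
      rcases le_total b (2 * n - 2) with h3 | h3
      · rw [min_eq_left h3]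
        rcases le_total a (2 * n - 2) with h4 | h4
        · rw [min_eq_left h4]
          omega
        · rw [min_eq_right h4]
          omega
      · rw [min_eq_right h3]
        rcases le_total a (2 * n - 2) with h4 | h4
        · rw [min_eq_left h4]
          omega
        · rw [min_eq_right h4]
          omega

lemma fin3 (n p NA NB K L a b : ℕ) (hn : 2 ≤ n) (hnp : 2 * n ≤ p + 1)
    (haN : a ≤ NA) (hbN : b ≤ NB) (hNA : NA ≤ p) (hNB : NB ≤ p) (hnA : n ≤ NA) (hnB : n ≤ NB)
    (hK : K = min NA (p + 1 - n)) (hL : L = min NB (p + 1 - K)) (hb : n ≤ b) (hab : a = b) :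
    a + b + ((min K a + 1 - max (n - 1) (a + b - n - 1)) +
      (if K ≤ a then min L b + 1 - max (n + 1) (a + b - K - 1) else 0)) ≤
     min a K + (min a (2 * n - 2) - (n - 1)) + (n - 1) + (min b (2 * n - 2) - n) + (min b L - n)
      + (K + 2 - n) := by
  obtain ⟨hK1, hK2, hK3⟩ : K ≤ NA ∧ K ≤ p + 1 - n ∧ (K = NA ∨ K = p + 1 - n) := by
    rw [hK]; omega
  obtain ⟨hL1, hL2, hL3⟩ : L ≤ NB ∧ L ≤ p + 1 - K ∧ (L = NB ∨ L = p + 1 - K) := by
    rw [hL]; omega
  clear hK hL
  have hKn : n ≤ K := by omega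
  have hLn : n ≤ L := by omega
  rcases le_total a K with h1 | h1
  · rw [min_eq_left h1, min_eq_right h1]
    rcases le_total b L with h2 | h2
    · rw [min_eq_right h2, min_eq_left h2]
      rcases le_total b (2 * n - 2) with h3 | h3
      · rw [min_eq_left h3]
        rcases le_total a (2 * n - 2) with h4 | h4
        · rw [min_eq_left h4]
          split_ifs <;> omega
        · rw [min_eq_right h4]
          split_ifs <;> omega
      · rw [min_eq_right h3]
        rcases le_total a (2 * n - 2) with h4 | h4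
        · rw [min_eq_left h4]
          split_ifs <;> omega
        · rw [min_eq_right h4]
          split_ifs <;> omega
    · rw [min_eq_left h2, min_eq_right h2]
      rcases le_total b (2 * n - 2) with h3 | h3
      · rw [min_eq_left h3]
        rcases le_total a (2 * n - 2) with h4 | h4
        · rw [min_eq_left h4]
          split_ifs <;> omega
        · rw [min_eq_right h4]
          split_ifs <;> omega
      · rw [min_eq_right h3]
        rcases le_total a (2 * n - 2) with h4 | h4
        · rw [min_eq_left h4]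
          split_ifs <;> omega
        · rw [min_eq_right h4]
          split_ifs <;> omega
  · rw [min_eq_right h1, min_eq_left h1, if_pos h1]
    rcases le_total b L with h2 | h2
    · rw [min_eq_right h2, min_eq_left h2]
      rcases le_total b (2 * n - 2) with h3 | h3
      · rw [min_eq_left h3]
        rcases le_total a (2 * n - 2) with h4 | h4
        · rw [min_eq_left h4]
          omega
        · rw [min_eq_right h4]
          omega
      · rw [min_eq_right h3]
        rcases le_total a (2 * n - 2) with h4 | h4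
        · rw [min_eq_left h4]
          omega
        · rw [min_eq_right h4]
          omega
    · rw [min_eq_left h2, min_eq_right h2]
      rcases le_total b (2 * n - 2) with h3 | h3
      · rw [min_eq_left h3]
        rcases le_total a (2 * n - 2) with h4 | h4
        · rw [min_eq_left h4]
          omega
        · rw [min_eq_right h4]
          omega
      · rw [min_eq_right h3]
        rcases le_total a (2 * n - 2) with h4 | h4
        · rw [min_eq_left h4]
          omega
        · rw [min_eq_right h4]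
          omega

lemma element_bound (n p NA NB K L a b : ℕ) (hn : 2 ≤ n) (hnp : 2 * n ≤ p + 1)
    (haN : a ≤ NA) (hbN : b ≤ NB) (hNA : NA ≤ p) (hNB : NB ≤ p) (hnA : n ≤ NA) (hnB : n ≤ NB)
    (hK : K = min NA (p + 1 - n)) (hL : L = min NB (p + 1 - K)) :
    a + b + lostT n K L a b ≤ leftT n K L a b := by
  have hKn : n ≤ K := by omega
  have h1 := lostT_le n K L a b
  rw [leftT_eq n K L a b hn hKn]
  refine (Nat.add_le_add_left h1 _).trans ?_
  by_cases hb : n ≤ b
  · rw [if_pos hb, if_pos hb, min_eq_right (show n - 1 ≤ b by omega)]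
    by_cases hab : a = b
    · rw [if_pos hab]
      exact fin3 n p NA NB K L a b hn hnp haN hbN hNA hNB hnA hnB hK hL hb hab
    · rw [if_neg hab, Nat.sub_zero, Nat.sub_zero]
      exact fin2 n p NA NB K L a b hn hnp haN hbN hNA hNB hnA hnB hK hL hb hab
  · rw [if_neg hb, if_neg hb]
    have h2 := fin1 n p NA K a b hn hnp haN hNA hnA hK (by omega)
    have h3 : min L b + 1 - max (n + 1) (a + b - K - (if a = b then 1 else 0)) = 0 := by
      have h4 : min L b ≤ b := min_le_right _ _
      have h5 : n + 1 ≤ max (n + 1) (a + b - K - (if a = b then 1 else 0)) := le_max_left _ _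
      omega
    rw [h3]
    have h4 : (if K ≤ a then 0 else 0) = 0 := by split_ifs <;> rfl
    rw [h4]
    linarith [Nat.zero_le (min b (2 * n - 2) - n), Nat.zero_le (min b L - n)]

lemma sum_lev (S : Finset ℕ) (f : ZMod q → ℕ) (g : ℕ → ℕ) :
    ∑ k ∈ S, lev f (g k) =
      ∑ i ∈ univ.erase (0 : ZMod q), ∑ k ∈ S, (if g k ≤ f i then 1 else 0) := by
  rw [Finset.sum_comm]
  simp only [lev_eq_sum]

/-- The numerical inequality. -/
theorem star (hq : q ≠ 2) {n : ℕ} (hn : 2 ≤ n) (hnp : 2 * n ≤ p + 1) (h : Fib α β γ p)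
    (hα0 : α 0 = n) (hβ0 : β 0 = n) (hαp : ∀ i, α i ≤ p) (hβp : ∀ i, β i ≤ p)
    (hopp : ∀ i, i ≠ 0 → 0 < α i → 0 < β (-i) → α i + β (-i) + 2 ≤ 2 * n) :
    ∑ i ∈ univ.erase (0 : ZMod q), (α i + β i) ≤ ∑ i ∈ univ.erase (0 : ZMod q), γ i := by
  classical
  obtain ⟨x, _, hx⟩ := exists_max_image (univ : Finset (ZMod q)) α ⟨0, mem_univ _⟩
  obtain ⟨y, _, hy⟩ := exists_max_image (univ : Finset (ZMod q)) β ⟨0, mem_univ _⟩
  obtain ⟨NA, hNA⟩ : ∃ NA, NA = α x := ⟨_, rfl⟩
  obtain ⟨NB, hNB⟩ : ∃ NB, NB = β y := ⟨_, rfl⟩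
  have hxN : ∀ i, α i ≤ NA := fun i => hNA ▸ hx i (mem_univ _)
  have hyN : ∀ i, β i ≤ NB := fun i => hNB ▸ hy i (mem_univ _)
  have hNAp : NA ≤ p := hNA ▸ hαp x
  have hNBp : NB ≤ p := hNB ▸ hβp y
  have hnA : n ≤ NA := hα0 ▸ hxN 0
  have hnB : n ≤ NB := hβ0 ▸ hyN 0
  obtain ⟨K, hK⟩ : ∃ K, K = min NA (p + 1 - n) := ⟨_, rfl⟩
  obtain ⟨L, hL⟩ : ∃ L, L = min NB (p + 1 - K) := ⟨_, rfl⟩
  have hKA : K ≤ NA := by omega
  have hKp : K + n ≤ p + 1 := by omega
  have hKn : n ≤ K := by omega
  have hLB : L ≤ NB := by omega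
  have hLp : K + L ≤ p + 1 := by omega
  have key : ∑ s ∈ Icc 1 (n - 1), (lev β s + lev α (2 * n - 1 - s)) +
      ∑ k ∈ Icc 1 (n - 2), (lev α k + lev β (2 * n - 1 - k)) +
      ∑ k ∈ Icc (n - 1) K, (lev α k + lev β n) +
      ∑ l ∈ Icc (n + 1) L, lev β l ≤
      (∑ s ∈ Icc 1 (n - 1), lev γ s + ∑ k ∈ Icc 1 (n - 2), lev γ (n - 1 + k) +
      ∑ k ∈ Icc (n - 1) K, lev γ (n - 1 + k) + ∑ l ∈ Icc (n + 1) L, lev γ (K - 1 + l)) +
      (∑ k ∈ Icc (n - 1) K, lost α β k n + ∑ l ∈ Icc (n + 1) L, lost α β K l) := by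
    have b1 : ∑ s ∈ Icc 1 (n - 1), (lev β s + lev α (2 * n - 1 - s)) ≤
        ∑ s ∈ Icc 1 (n - 1), lev γ s := by
      apply Finset.sum_le_sum
      intro s hs
      rw [mem_Icc] at hs
      exact bound1 hq hn hnp h hα0 hβ0 hopp s hs.1 (by omega)
    have b2 : ∑ k ∈ Icc 1 (n - 2), (lev α k + lev β (2 * n - 1 - k)) ≤
        ∑ k ∈ Icc 1 (n - 2), lev γ (n - 1 + k) := by
      apply Finset.sum_le_sum
      intro s hs
      rw [mem_Icc] at hs
      exact bound2 hq hn hnp h hα0 hβ0 hopp s hs.1 (by omega)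
    have b3 : ∑ k ∈ Icc (n - 1) K, (lev α k + lev β n) ≤
        ∑ k ∈ Icc (n - 1) K, (lev γ (n - 1 + k) + lost α β k n) := by
      apply Finset.sum_le_sum
      intro s hs
      rw [mem_Icc] at hs
      exact bound3 hq hn hnp h hα0 hβ0 hopp s (by omega) (by omega) ⟨x, by omega⟩
    have b4 : ∑ l ∈ Icc (n + 1) L, lev β l ≤
        ∑ l ∈ Icc (n + 1) L, (lev γ (K - 1 + l) + lost α β K l) := by
      apply Finset.sum_le_sum
      intro s hs
      rw [mem_Icc] at hs
      exact bound4 hq hn hnp h hα0 hβ0 hopp K s hKn (by omega) (by omega) ⟨x, by omega⟩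
        ⟨y, by omega⟩
    simp only [sum_add_distrib] at b1 b2 b3 b4 ⊢
    omega
  have e1 : ∑ s ∈ Icc 1 (n - 1), (lev β s + lev α (2 * n - 1 - s)) +
      ∑ k ∈ Icc 1 (n - 2), (lev α k + lev β (2 * n - 1 - k)) +
      ∑ k ∈ Icc (n - 1) K, (lev α k + lev β n) +
      ∑ l ∈ Icc (n + 1) L, lev β l =
      ∑ i ∈ univ.erase (0 : ZMod q), leftT n K L (α i) (β i) := by
    unfold leftT
    simp only [sum_add_distrib]
    rw [sum_lev _ β (fun s => s), sum_lev _ α (fun s => 2 * n - 1 - s),
      sum_lev _ α (fun s => s), sum_lev _ β (fun s => 2 * n - 1 - s),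
      sum_lev _ α (fun s => s), sum_lev _ β (fun _ => n), sum_lev _ β (fun s => s)]
  have e2 : (∑ s ∈ Icc 1 (n - 1), lev γ s + ∑ k ∈ Icc 1 (n - 2), lev γ (n - 1 + k) +
      ∑ k ∈ Icc (n - 1) K, lev γ (n - 1 + k) + ∑ l ∈ Icc (n + 1) L, lev γ (K - 1 + l)) =
      ∑ i ∈ univ.erase (0 : ZMod q), gamT n K L (γ i) := by
    unfold gamT
    simp only [sum_add_distrib]
    rw [sum_lev _ γ (fun s => s), sum_lev _ γ (fun s => n - 1 + s),
      sum_lev _ γ (fun s => n - 1 + s), sum_lev _ γ (fun s => K - 1 + s)]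
  have e3 : (∑ k ∈ Icc (n - 1) K, lost α β k n + ∑ l ∈ Icc (n + 1) L, lost α β K l) =
      ∑ i ∈ univ.erase (0 : ZMod q), lostT n K L (α i) (β i) := by
    unfold lostT
    rw [sum_add_distrib, Finset.sum_comm]
    congr 1
    · simp only [lost_eq_sum]
    · rw [Finset.sum_comm]
      simp only [lost_eq_sum]
  rw [e1, e2, e3] at key
  have f1 : ∑ i ∈ univ.erase (0 : ZMod q), (α i + β i) +
      ∑ i ∈ univ.erase (0 : ZMod q), lostT n K L (α i) (β i) ≤
      ∑ i ∈ univ.erase (0 : ZMod q), leftT n K L (α i) (β i) := by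
    rw [← sum_add_distrib]
    apply Finset.sum_le_sum
    intro i _
    exact element_bound n p NA NB K L (α i) (β i) hn hnp (hxN i) (hyN i) hNAp hNBp hnA hnB hK hL
  have f2 : ∑ i ∈ univ.erase (0 : ZMod q), gamT n K L (γ i) ≤
      ∑ i ∈ univ.erase (0 : ZMod q), γ i := by
    apply Finset.sum_le_sum
    intro i _
    exact gamT_le n K L (γ i) hn hKn
  omega

end cell

end Pool.Agent.Work.MP_59976d_co
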