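import Mathlib

/-!
Restricted sumsets: the step lemma for a homomorphism to the rationals.
-/

namespace Pool.Agent.Work.MP_59976d_co

open Finset

variable {G : Type*} [AddCommGroup G] [DecidableEq G]

/-- The restricted sumset as a finset. -/
def rs (A B : Finset G) : Finset G :=
  ((A ×ˢ B).filter (fun p => p.1 ≠ p.2)).image (fun p => p.1 + p.2)

lemma mem_rs {A B : Finset G} {x : G} :
    x ∈ rs A B ↔ ∃ a ∈ A, ∃ b ∈ B, a ≠ b ∧ a + b = x := by
  unfold rs
  simp only [mem_image, mem_filter, mem_product, Prod.exists]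
  constructor
  · rintro ⟨a, b, ⟨⟨ha, hb⟩, hne⟩, h⟩
    exact ⟨a, ha, b, hb, hne, h⟩
  · rintro ⟨a, ha, b, hb, hne, h⟩
    exact ⟨a, b, ⟨⟨ha, hb⟩, hne⟩, h⟩

lemma rs_mono {A B A' B' : Finset G} (hA : A ⊆ A') (hB : B ⊆ B') : rs A B ⊆ rs A' B' := by
  intro x hx
  rw [mem_rs] at hx ⊢
  obtain ⟨a, ha, b, hb, hne, h⟩ := hx
  exact ⟨a, hA ha, b, hB hb, hne, h⟩

/-- Admissible pairs. -/
structure Adm (A B : Finset G) : Prop where
  zA : (0 : G) ∈ A
  zB : (0 : G) ∈ B
  uniq : ∀ a ∈ A, -a ∈ B → a = 0

/-- Data of one deficient side. `m` is the minimum of `φ` on `A`. -/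
lemma side (φ : G →+ ℚ) (A B : Finset G) (h : Adm A B) (c₀ : G) (hc₀ : c₀ ∈ A)
    (hdef : ((rs A B).filter (fun s => φ s < φ c₀)).card + 1 ≤
      (B.filter (fun b => φ b < 0)).card) :
    φ c₀ < 0 ∧ (∀ c ∈ A, φ c = φ c₀ → c ∈ B) ∧
    ((A.filter (fun a => φ a = φ c₀)).card + 1 ≤
        ((rs A B).filter (fun s => φ s = φ c₀)).card ∨
      ((∀ g, g ∈ A.filter (fun a => φ a = 0) ∨ g ∈ B.filter (fun b => φ b = 0) →
          ∀ c ∈ A, φ c = φ c₀ → (c - g ∈ A ∧ g + g = 0)))) := by
  set m := φ c₀ with hm
  set Bm := B.filter (fun b => φ b < 0) with hBm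
  set S1 := (rs A B).filter (fun s => φ s < m) with hS1
  have key : ∀ c ∈ A, φ c = m → (Bm.erase c).image (fun b => c + b) ⊆ S1 := by
    intro c hc hcm x hx
    rw [mem_image] at hx
    obtain ⟨b, hb, rfl⟩ := hx
    rw [mem_erase, hBm, mem_filter] at hb
    obtain ⟨hbc, hbB, hb0⟩ := hb
    rw [hS1, mem_filter]
    refine ⟨mem_rs.2 ⟨c, hc, b, hbB, fun h => hbc h.symm, rfl⟩, ?_⟩
    rw [map_add, hcm]; linarith
  have cardimg : ∀ c : G, ((Bm.erase c).image (fun b => c + b)).card = (Bm.erase c).card := by
    intro c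
    exact card_image_of_injective _ (fun x y hxy => by simpa using hxy)
  have hCB : ∀ c ∈ A, φ c = m → c ∈ Bm := by
    intro c hc hcm
    by_contra hcB
    have h1 := card_le_card (key c hc hcm)
    rw [cardimg, erase_eq_of_notMem hcB] at h1
    omega
  have heq : ∀ c ∈ A, φ c = m → (Bm.erase c).image (fun b => c + b) = S1 := by
    intro c hc hcm
    apply eq_of_subset_of_card_le (key c hc hcm)
    rw [cardimg, card_erase_of_mem (hCB c hc hcm)]
    omega
  have hm0 : m < 0 := by
    have := hCB c₀ hc₀ rfl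
    rw [hBm, mem_filter] at this
    exact this.2
  refine ⟨hm0, fun c hc hcm => (mem_filter.1 (hCB c hc hcm)).1, ?_⟩
  set C := A.filter (fun a => φ a = m) with hC
  set T := (rs A B).filter (fun s => φ s = m) with hT
  by_cases hcard : C.card + 1 ≤ T.card
  · exact Or.inl hcard
  right
  have hCT : C ⊆ T := by
    intro c hc
    rw [hC, mem_filter] at hc
    rw [hT, mem_filter]
    refine ⟨mem_rs.2 ⟨c, hc.1, 0, h.zB, ?_, add_zero c⟩, hc.2⟩
    rintro rfl
    rw [map_zero] at hc
    linarith [hc.2]
  have hTC : C = T := eq_of_subset_of_card_le hCT (by omega)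
  -- closure under adding g
  have hadd : ∀ g, g ∈ A.filter (fun a => φ a = 0) ∨ g ∈ B.filter (fun b => φ b = 0) →
      ∀ c ∈ C, c + g ∈ C := by
    intro g hg c hc
    rw [hTC, hT, mem_filter]
    rw [hC, mem_filter] at hc
    rcases hg with hg | hg
    · rw [mem_filter] at hg
      refine ⟨mem_rs.2 ⟨g, hg.1, c, (mem_filter.1 (hCB c hc.1 hc.2)).1, ?_, add_comm g c⟩, ?_⟩
      · rintro rfl
        linarith [hg.2, hc.2]
      · rw [map_add, hc.2, hg.2, add_zero]
    · rw [mem_filter] at hg
      refine ⟨mem_rs.2 ⟨c, hc.1, g, hg.1, ?_, rfl⟩, ?_⟩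
      · rintro rfl
        linarith [hg.2, hc.2]
      · rw [map_add, hc.2, hg.2, add_zero]
  have hsub : ∀ g, g ∈ A.filter (fun a => φ a = 0) ∨ g ∈ B.filter (fun b => φ b = 0) →
      ∀ c ∈ C, c - g ∈ C := by
    intro g hg c hc
    have himg : C.image (fun c => c + g) = C := by
      apply eq_of_subset_of_card_le
      · intro x hx
        rw [mem_image] at hx
        obtain ⟨c', hc', rfl⟩ := hx
        exact hadd g hg c' hc'
      · rw [card_image_of_injective _ (fun x y hxy => by simpa using hxy)]
    have : c ∈ C.image (fun c => c + g) := by rw [himg]; exact hc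
    rw [mem_image] at this
    obtain ⟨c', hc', rfl⟩ := this
    simpa using hc'
  intro g hg c hcA hcm
  have hcC : c ∈ C := by rw [hC, mem_filter]; exact ⟨hcA, hcm⟩
  have h1 := hsub g hg c hcC
  have h2 := hadd g hg c hcC
  refine ⟨(mem_filter.1 h1).1, ?_⟩
  by_contra hgg
  have hne : c - g ≠ c + g := by
    intro h
    apply hgg
    have : g + g = (c + g) - (c - g) := by abel
    rw [this, h, sub_self]
  have h3 : (c + g) + (c - g) ∈ (Bm.erase (c + g)).image (fun b => (c + g) + b) := by
    rw [mem_image]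
    refine ⟨c - g, ?_, rfl⟩
    rw [mem_erase]
    exact ⟨hne, hCB _ (mem_filter.1 h1).1 (mem_filter.1 h1).2⟩
  rw [heq _ (mem_filter.1 h2).1 (mem_filter.1 h2).2, ← heq c hcA hcm, mem_image] at h3
  obtain ⟨b, hb, hbe⟩ := h3
  rw [mem_erase] at hb
  apply hb.1
  have : c + g + (c - g) = c + c := by abel
  rw [this] at hbe
  exact add_left_cancel hbe

/-- A walk argument by the pigeonhole principle. -/
lemma no_walk (N : Finset ℚ) (m M : ℚ) (hm : m < 0) (hM : 0 < M) (hmN : m ∈ N)
    (hle : ∀ n ∈ N, m ≤ n ∧ n ≤ M) (h0 : (0 : ℚ) ∉ N)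
    (hpos : ∀ n ∈ N, 0 < n → n + m ∈ N) (hneg : ∀ n ∈ N, n < 0 → n + M ∈ N) : False := by
  set f : ℚ → ℚ := fun n => if 0 < n then n + m else n + M with hf
  have hmaps : ∀ n ∈ N.erase M, f n ∈ (N.erase M).erase m := by
    intro n hn
    rw [mem_erase] at hn
    have hn0 : n ≠ 0 := fun h => h0 (h ▸ hn.2)
    have hl := hle n hn.2
    rw [mem_erase, mem_erase]
    by_cases hp : 0 < n
    · have hfn : f n = n + m := by simp [hf, hp]
      rw [hfn]
      exact ⟨by linarith, by linarith, hpos n hn.2 hp⟩
    · have hn' : n < 0 := lt_of_le_of_ne (not_lt.1 hp) hn0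
      have hfn : f n = n + M := by simp [hf, hp]
      rw [hfn]
      exact ⟨by linarith, by linarith, hneg n hn.2 hn'⟩
  have hinj : ∀ n ∈ N.erase M, ∀ n' ∈ N.erase M, f n = f n' → n = n' := by
    intro n hn n' hn' hff
    rw [mem_erase] at hn hn'
    have hl := hle n hn.2
    have hl' := hle n' hn'.2
    have hlt : n < M := lt_of_le_of_ne hl.2 hn.1
    have hlt' : n' < M := lt_of_le_of_ne hl'.2 hn'.1
    by_cases hp : 0 < n <;> by_cases hp' : 0 < n' <;> simp only [hf, hp, hp', if_true, if_false] at hff <;>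
      linarith
  have hcard := card_le_card_of_injOn f hmaps (fun n hn n' hn' h => hinj n hn n' hn' h)
  have hmN' : m ∈ N.erase M := by rw [mem_erase]; exact ⟨by linarith, hmN⟩
  rw [card_erase_of_mem hmN'] at hcard
  have : 0 < (N.erase M).card := card_pos.2 ⟨m, hmN'⟩
  omega


lemma card_two_torsion (A B : Finset G) (h : Adm A B) (h2 : ∀ g, g ∈ A ∨ g ∈ B → g + g = 0) :
    A.card + B.card ≤ ((A ∪ B).erase 0).card + 2 ∧ (A ∪ B).erase 0 ⊆ rs A B := by
  constructor
  · have hI : A ∩ B ⊆ {0} := by
      intro x hx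
      rw [mem_inter] at hx
      rw [mem_singleton]
      apply h.uniq x hx.1
      have : -x = x := by
        have := h2 x (Or.inl hx.1)
        exact neg_eq_of_add_eq_zero_left this
      rw [this]; exact hx.2
    have h1 := card_le_card hI
    rw [card_singleton] at h1
    have h3 := card_union_add_card_inter A B
    rw [card_erase_of_mem (mem_union_left _ h.zA)]
    omega
  · intro x hx
    rw [mem_erase, mem_union] at hx
    obtain ⟨hx0, hx | hx⟩ := hx
    · exact mem_rs.2 ⟨x, hx, 0, h.zB, hx0, add_zero x⟩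
    · exact mem_rs.2 ⟨0, h.zA, x, hx, Ne.symm hx0, zero_add x⟩

/-- Splitting a finset at the value of `φ`. -/
lemma card_split3 (φ : G →+ ℚ) (B : Finset G) :
    B.card = (B.filter (fun b => φ b < 0)).card + (B.filter (fun b => φ b = 0)).card +
      (B.filter (fun b => 0 < φ b)).card := by
  have h1 := card_filter_add_card_filter_not (s := B) (fun b => φ b < 0)
  have h2 := card_filter_add_card_filter_not (s := B.filter (fun b => ¬ φ b < 0)) (fun b => φ b = 0)
  rw [filter_filter, filter_filter] at h2
  have e1 : B.filter (fun b => ¬ φ b < 0 ∧ φ b = 0) = B.filter (fun b => φ b = 0) := by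
    apply filter_congr
    intro x _
    constructor
    · exact fun h => h.2
    · intro h; exact ⟨by rw [h]; simp, h⟩
  have e2 : B.filter (fun b => ¬ φ b < 0 ∧ ¬ φ b = 0) = B.filter (fun b => 0 < φ b) := by
    apply filter_congr
    intro x _
    constructor
    · intro h
      exact lt_of_le_of_ne (not_lt.1 h.1) (Ne.symm h.2)
    · intro h; exact ⟨not_lt.2 h.le, ne_of_gt h⟩
  rw [e1, e2] at h2
  omega

/-- **Step lemma.** -/
theorem step (φ : G →+ ℚ) (A B : Finset G) (h : Adm A B)
    (h0 : (A.filter (fun a => φ a = 0)).card + (B.filter (fun b => φ b = 0)).card ≤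
      (rs (A.filter (fun a => φ a = 0)) (B.filter (fun b => φ b = 0))).card + 3) :
    A.card + B.card ≤ (rs A B).card + 3 := by
  classical
  obtain ⟨c, hcA, hcmin⟩ := exists_min_image A (fun a => φ a) ⟨0, h.zA⟩
  obtain ⟨d, hdA, hdmax⟩ := exists_max_image A (fun a => φ a) ⟨0, h.zA⟩
  set m := φ c with hm
  set M := φ d with hM
  have hm0 : m ≤ 0 := by have := hcmin 0 h.zA; simpa using this
  have hM0 : 0 ≤ M := by have := hdmax 0 h.zA; simpa using this
  set A0 := A.filter (fun a => φ a = 0) with hA0
  set B0 := B.filter (fun b => φ b = 0) with hB0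
  set S := rs A B with hS
  set S1 := S.filter (fun s => φ s < m) with hS1
  set S4 := S.filter (fun s => M < φ s) with hS4
  set S3 := S.filter (fun s => φ s = 0) with hS3
  set S2 := S.filter (fun s => m ≤ φ s ∧ φ s ≤ M ∧ φ s ≠ 0) with hS2
  set A2 := A.filter (fun a => φ a ≠ 0) with hA2
  set Bm := B.filter (fun b => φ b < 0) with hBm
  set Bp := B.filter (fun b => 0 < φ b) with hBp
  have hcardB : B.card = Bm.card + B0.card + Bp.card := card_split3 φ B
  have hcardA : A0.card + A2.card = A.card := by
    have := card_filter_add_card_filter_not (s := A) (fun a => φ a = 0)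
    exact this
  have hcardS : S.card = S1.card + S2.card + S3.card + S4.card := by
    have d1 : Disjoint S1 S2 := by
      rw [disjoint_left]
      intro x hx hx'
      rw [hS1, mem_filter] at hx
      rw [hS2, mem_filter] at hx'
      exact absurd hx.2 (not_lt.2 hx'.2.1)
    have d2 : Disjoint (S1 ∪ S2) S3 := by
      rw [disjoint_left]
      intro x hx hx'
      rw [mem_union, hS1, hS2, mem_filter, mem_filter] at hx
      rw [hS3, mem_filter] at hx'
      rcases hx with hx | hx
      · linarith [hx.2, hx'.2]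
      · exact hx.2.2.2 hx'.2
    have d3 : Disjoint (S1 ∪ S2 ∪ S3) S4 := by
      rw [disjoint_left]
      intro x hx hx'
      rw [mem_union, mem_union, hS1, hS2, hS3, mem_filter, mem_filter, mem_filter] at hx
      rw [hS4, mem_filter] at hx'
      rcases hx with (hx | hx) | hx
      · linarith [hx.2, hx'.2]
      · linarith [hx.2.2.1, hx'.2]
      · linarith [hx.2, hx'.2]
    have hU : S = S1 ∪ S2 ∪ S3 ∪ S4 := by
      ext x
      rw [mem_union, mem_union, mem_union, hS1, hS2, hS3, hS4, mem_filter, mem_filter, mem_filter,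
        mem_filter]
      constructor
      · intro hx
        by_cases h1 : φ x < m
        · exact Or.inl (Or.inl (Or.inl ⟨hx, h1⟩))
        by_cases h4 : M < φ x
        · exact Or.inr ⟨hx, h4⟩
        by_cases h3 : φ x = 0
        · exact Or.inl (Or.inr ⟨hx, h3⟩)
        exact Or.inl (Or.inl (Or.inr ⟨hx, not_lt.1 h1, not_lt.1 h4, h3⟩))
      · rintro (((hx | hx) | hx) | hx) <;> exact hx.1
    have hc := congrArg card hU
    rw [card_union_of_disjoint d3, card_union_of_disjoint d2, card_union_of_disjoint d1] at hc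
    exact hc
  have hA2S2 : A2 ⊆ S2 := by
    intro x hx
    rw [hA2, mem_filter] at hx
    rw [hS2, mem_filter]
    refine ⟨mem_rs.2 ⟨x, hx.1, 0, h.zB, ?_, add_zero x⟩, hcmin x hx.1, hdmax x hx.1, hx.2⟩
    rintro rfl
    exact hx.2 (map_zero φ)
  have hrs0 : rs A0 B0 ⊆ S3 := by
    intro x hx
    rw [hS3, mem_filter]
    refine ⟨rs_mono (filter_subset _ _) (filter_subset _ _) hx, ?_⟩
    rw [mem_rs] at hx
    obtain ⟨a, ha, b, hb, _, rfl⟩ := hx
    rw [hA0, mem_filter] at ha
    rw [hB0, mem_filter] at hb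
    rw [map_add, ha.2, hb.2, add_zero]
  have hc2 := card_le_card hA2S2
  have hc3 := card_le_card hrs0
  -- side bounds
  have hb1 : Bm.card ≤ S1.card + 1 := by
    have : (Bm.erase c).image (fun b => c + b) ⊆ S1 := by
      intro x hx
      rw [mem_image] at hx
      obtain ⟨b, hb, rfl⟩ := hx
      rw [mem_erase, hBm, mem_filter] at hb
      rw [hS1, mem_filter]
      refine ⟨mem_rs.2 ⟨c, hcA, b, hb.2.1, fun h => hb.1 h.symm, rfl⟩, ?_⟩
      rw [map_add]; linarith [hb.2.2]
    have h1 := card_le_card this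
    rw [card_image_of_injective _ (fun x y hxy => by simpa using hxy)] at h1
    have h2 := pred_card_le_card_erase (s := Bm) (a := c)
    omega
  have hb4 : Bp.card ≤ S4.card + 1 := by
    have : (Bp.erase d).image (fun b => d + b) ⊆ S4 := by
      intro x hx
      rw [mem_image] at hx
      obtain ⟨b, hb, rfl⟩ := hx
      rw [mem_erase, hBp, mem_filter] at hb
      rw [hS4, mem_filter]
      refine ⟨mem_rs.2 ⟨d, hdA, b, hb.2.1, fun h => hb.1 h.symm, rfl⟩, ?_⟩
      rw [map_add]; linarith [hb.2.2]
    have h1 := card_le_card this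
    rw [card_image_of_injective _ (fun x y hxy => by simpa using hxy)] at h1
    have h2 := pred_card_le_card_erase (s := Bp) (a := d)
    omega
  by_contra hcon
  -- consequences of deficient sides
  have hside1 : S1.card + 1 ≤ Bm.card →
      m < 0 ∧ (∀ c' ∈ A, φ c' = m → c' ∈ B) ∧
      ((A.filter (fun a => φ a = m)).card + 1 ≤ (S.filter (fun s => φ s = m)).card ∨
      ((∀ g, g ∈ A0 ∨ g ∈ B0 → ∀ c' ∈ A, φ c' = m → (c' - g ∈ A ∧ g + g = 0)))) :=
    fun hdef => side φ A B h c hcA hdef
  have hside4 : S4.card + 1 ≤ Bp.card →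
      0 < M ∧ (∀ c' ∈ A, φ c' = M → c' ∈ B) ∧
      ((A.filter (fun a => φ a = M)).card + 1 ≤ (S.filter (fun s => φ s = M)).card ∨
      ((∀ g, g ∈ A0 ∨ g ∈ B0 → ∀ c' ∈ A, φ c' = M → (c' - g ∈ A ∧ g + g = 0)))) := by
    intro hdef
    have hneg := side (-φ) A B h d hdA (by
      have e1 : (rs A B).filter (fun s => (-φ) s < (-φ) d) = S4 := by
        apply filter_congr
        intro x _
        simp only [AddMonoidHom.neg_apply, neg_lt_neg_iff]
        exact Iff.rfl
      have e2 : B.filter (fun b => (-φ) b < 0) = Bp := by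
        apply filter_congr
        intro x _
        simp only [AddMonoidHom.neg_apply, neg_lt_zero]
      rw [e1, e2]; exact hdef)
    simp only [AddMonoidHom.neg_apply, neg_lt_zero, neg_inj, neg_eq_zero] at hneg
    exact hneg
  -- S2 gain lemmas
  have hgain1 : m < 0 → (A.filter (fun a => φ a = m)).card + 1 ≤ (S.filter (fun s => φ s = m)).card →
      A2.card + 1 ≤ S2.card := by
    intro hm' hg
    have hs : (A2.filter (fun a => φ a ≠ m)) ∪ (S.filter (fun s => φ s = m)) ⊆ S2 := by
      intro x hx
      rw [mem_union] at hx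
      rcases hx with hx | hx
      · exact hA2S2 (mem_filter.1 hx).1
      · rw [mem_filter] at hx
        rw [hS2, mem_filter]
        refine ⟨hx.1, by linarith [hx.2], by linarith [hx.2], ?_⟩
        rw [hx.2]; exact ne_of_lt hm'
    have hdis : Disjoint (A2.filter (fun a => φ a ≠ m)) (S.filter (fun s => φ s = m)) := by
      rw [disjoint_left]
      intro x hx hx'
      exact (mem_filter.1 hx).2 (mem_filter.1 hx').2
    have h1 := card_le_card hs
    rw [card_union_of_disjoint hdis] at h1
    have h2 := card_filter_add_card_filter_not (s := A2) (fun a => φ a = m)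
    have h3 : A2.filter (fun a => φ a = m) = A.filter (fun a => φ a = m) := by
      rw [hA2, filter_filter]
      apply filter_congr
      intro x _
      constructor
      · exact fun h => h.2
      · intro h; exact ⟨by rw [h]; exact ne_of_lt hm', h⟩
    rw [h3] at h2
    have h4 : (A2.filter (fun a => ¬ φ a = m)).card = (A2.filter (fun a => φ a ≠ m)).card := by
      congr 1
    omega
  have hgain4 : 0 < M → (A.filter (fun a => φ a = M)).card + 1 ≤ (S.filter (fun s => φ s = M)).card →
      A2.card + 1 ≤ S2.card := by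
    intro hm' hg
    have hs : (A2.filter (fun a => φ a ≠ M)) ∪ (S.filter (fun s => φ s = M)) ⊆ S2 := by
      intro x hx
      rw [mem_union] at hx
      rcases hx with hx | hx
      · exact hA2S2 (mem_filter.1 hx).1
      · rw [mem_filter] at hx
        rw [hS2, mem_filter]
        refine ⟨hx.1, by linarith [hx.2], by linarith [hx.2], ?_⟩
        rw [hx.2]; exact ne_of_gt hm'
    have hdis : Disjoint (A2.filter (fun a => φ a ≠ M)) (S.filter (fun s => φ s = M)) := by
      rw [disjoint_left]
      intro x hx hx'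
      exact (mem_filter.1 hx).2 (mem_filter.1 hx').2
    have h1 := card_le_card hs
    rw [card_union_of_disjoint hdis] at h1
    have h2 := card_filter_add_card_filter_not (s := A2) (fun a => φ a = M)
    have h3 : A2.filter (fun a => φ a = M) = A.filter (fun a => φ a = M) := by
      rw [hA2, filter_filter]
      apply filter_congr
      intro x _
      constructor
      · exact fun h => h.2
      · intro h; exact ⟨by rw [h]; exact ne_of_gt hm', h⟩
    rw [h3] at h2
    have h4 : (A2.filter (fun a => ¬ φ a = M)).card = (A2.filter (fun a => φ a ≠ M)).card := by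
      congr 1
    omega
  -- centre gain
  have hadm0 : Adm A0 B0 := by
    refine ⟨?_, ?_, ?_⟩
    · rw [hA0, mem_filter]; exact ⟨h.zA, map_zero φ⟩
    · rw [hB0, mem_filter]; exact ⟨h.zB, map_zero φ⟩
    · intro a ha hb
      exact h.uniq a (mem_filter.1 ha).1 (mem_filter.1 hb).1
  have hcentre : (∀ g, g ∈ A0 ∨ g ∈ B0 → g + g = 0) →
      A0.card + B0.card ≤ S3.card + 2 ∧ (A0 ∪ B0).erase 0 ⊆ S3 ∧
      A0.card + B0.card ≤ ((A0 ∪ B0).erase 0).card + 2 := by
    intro h2
    obtain ⟨h3, h4⟩ := card_two_torsion A0 B0 hadm0 h2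
    have h5 := card_le_card (h4.trans hrs0)
    exact ⟨by omega, h4.trans hrs0, h3⟩
  have hcm : c ∈ A ∧ φ c = m := ⟨hcA, rfl⟩
  have hdM : d ∈ A ∧ φ d = M := ⟨hdA, rfl⟩
  have hdef1 : S1.card + 1 ≤ Bm.card := by
    by_contra hd1
    have hd4 : S4.card + 1 ≤ Bp.card := by omega
    obtain ⟨p1, p2, p3⟩ := hside4 hd4
    rcases p3 with p3 | p3
    · have := hgain4 p1 p3; omega
    · have := (hcentre (fun g hg => (p3 g hg d hdM.1 hdM.2).2)).1; omega
  have hdef4 : S4.card + 1 ≤ Bp.card := by
    by_contra hd4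
    obtain ⟨p1, p2, p3⟩ := hside1 hdef1
    rcases p3 with p3 | p3
    · have := hgain1 p1 p3; omega
    · have := (hcentre (fun g hg => (p3 g hg c hcm.1 hcm.2).2)).1; omega
  obtain ⟨p1, p2, p3⟩ := hside1 hdef1
  obtain ⟨q1, q2, q3⟩ := hside4 hdef4
  have hp3 : ∀ g, g ∈ A0 ∨ g ∈ B0 → ∀ c' ∈ A, φ c' = m → (c' - g ∈ A ∧ g + g = 0) := by
    rcases p3 with p3 | p3
    · exfalso
      have h1 := hgain1 p1 p3
      rcases q3 with q3 | q3
      · have h2 : A2.card + 2 ≤ S2.card := by
          have hs : ((A2.filter (fun a => φ a ≠ m)).filter (fun a => φ a ≠ M)) ∪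
              ((S.filter (fun s => φ s = m)) ∪ (S.filter (fun s => φ s = M))) ⊆ S2 := by
            intro x hx
            rw [mem_union, mem_union] at hx
            rcases hx with hx | hx | hx
            · exact hA2S2 (mem_filter.1 (mem_filter.1 hx).1).1
            · rw [mem_filter] at hx
              rw [hS2, mem_filter]
              refine ⟨hx.1, by linarith [hx.2], by linarith [hx.2], ?_⟩
              rw [hx.2]; exact ne_of_lt p1
            · rw [mem_filter] at hx
              rw [hS2, mem_filter]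
              refine ⟨hx.1, by linarith [hx.2], by linarith [hx.2], ?_⟩
              rw [hx.2]; exact ne_of_gt q1
          have hd1 : Disjoint (S.filter (fun s => φ s = m)) (S.filter (fun s => φ s = M)) := by
            rw [disjoint_left]
            intro x hx hx'
            linarith [(mem_filter.1 hx).2, (mem_filter.1 hx').2]
          have hd2 : Disjoint ((A2.filter (fun a => φ a ≠ m)).filter (fun a => φ a ≠ M))
              ((S.filter (fun s => φ s = m)) ∪ (S.filter (fun s => φ s = M))) := by
            rw [disjoint_left]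
            intro x hx hx'
            rw [mem_union] at hx'
            rcases hx' with hx' | hx'
            · exact (mem_filter.1 (mem_filter.1 hx).1).2 (mem_filter.1 hx').2
            · exact (mem_filter.1 hx).2 (mem_filter.1 hx').2
          have h5 := card_le_card hs
          rw [card_union_of_disjoint hd2, card_union_of_disjoint hd1] at h5
          have h6 := card_filter_add_card_filter_not (s := A2) (fun a => φ a = m)
          have h7 := card_filter_add_card_filter_not (s := A2.filter (fun a => ¬ φ a = m))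
            (fun a => φ a = M)
          have h8 : A2.filter (fun a => φ a = m) = A.filter (fun a => φ a = m) := by
            rw [hA2, filter_filter]
            apply filter_congr
            intro x _
            constructor
            · exact fun h => h.2
            · intro h; exact ⟨by rw [h]; exact ne_of_lt p1, h⟩
          have h9 : (A2.filter (fun a => ¬ φ a = m)).filter (fun a => φ a = M) =
              A.filter (fun a => φ a = M) := by
            rw [hA2, filter_filter, filter_filter]
            apply filter_congr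
            intro x _
            constructor
            · exact fun h => h.2.2
            · intro h
              refine ⟨?_, ?_, h⟩
              · rw [h]; exact ne_of_gt q1
              · rw [h]; intro h'; linarith
          have h10 : ((A2.filter (fun a => ¬ φ a = m)).filter (fun a => ¬ φ a = M)).card =
              ((A2.filter (fun a => φ a ≠ m)).filter (fun a => φ a ≠ M)).card := by
            congr 1
          rw [h8] at h6
          rw [h9] at h7
          omega
        omega
      · have := (hcentre (fun g hg => (q3 g hg d hdM.1 hdM.2).2)).1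
        omega
    · exact p3
  obtain ⟨c1, c2, c3⟩ := hcentre (fun g hg => (hp3 g hg c hcm.1 hcm.2).2)
  have hS2eq : A2 = S2 := eq_of_subset_of_card_le hA2S2 (by omega)
  have hS3eq : (A0 ∪ B0).erase 0 = S3 := eq_of_subset_of_card_le c2 (by omega)
  have hq3 : ∀ g, g ∈ A0 ∨ g ∈ B0 → ∀ c' ∈ A, φ c' = M → (c' - g ∈ A ∧ g + g = 0) := by
    rcases q3 with q3 | q3
    · exfalso
      have := hgain4 q1 q3; omega
    · exact q3
  -- moving by `c` and `d`
  have hmove1 : ∀ a ∈ A, 0 < φ a → a + c ∈ A2 := by
    intro a ha hpos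
    have hacS : a + c ∈ S := mem_rs.2 ⟨a, ha, c, p2 c hcm.1 hcm.2, by
      rintro rfl; linarith, rfl⟩
    have hval : φ (a + c) = φ a + m := by rw [map_add]
    by_cases hz : φ a + m = 0
    · exfalso
      have h3 : a + c ∈ S3 := by rw [hS3, mem_filter]; exact ⟨hacS, by rw [hval, hz]⟩
      rw [← hS3eq, mem_erase, mem_union] at h3
      have h4 := hp3 (a + c) h3.2 c hcm.1 hcm.2
      have h5 : c - (a + c) = -a := by abel
      rw [h5] at h4
      have h6 : φ (-a) = m := by rw [map_neg]; linarith
      have h7 := p2 (-a) h4.1 h6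
      have h8 := h.uniq a ha h7
      rw [h8, map_zero] at hpos
      exact lt_irrefl 0 hpos
    · rw [hS2eq, hS2, mem_filter]
      refine ⟨hacS, ?_, ?_, ?_⟩
      · rw [hval]; linarith
      · rw [hval]; linarith [hdmax a ha]
      · rw [hval]; exact hz
  have hmove2 : ∀ a ∈ A, φ a < 0 → a + d ∈ A2 := by
    intro a ha hneg
    have hacS : a + d ∈ S := mem_rs.2 ⟨a, ha, d, q2 d hdM.1 hdM.2, by
      rintro rfl; linarith, rfl⟩
    have hval : φ (a + d) = φ a + M := by rw [map_add]
    by_cases hz : φ a + M = 0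
    · exfalso
      have h3 : a + d ∈ S3 := by rw [hS3, mem_filter]; exact ⟨hacS, by rw [hval, hz]⟩
      rw [← hS3eq, mem_erase, mem_union] at h3
      have h4 := hq3 (a + d) h3.2 d hdM.1 hdM.2
      have h5 : d - (a + d) = -a := by abel
      rw [h5] at h4
      have h6 : φ (-a) = M := by rw [map_neg]; linarith
      have h7 := q2 (-a) h4.1 h6
      have h8 := h.uniq a ha h7
      rw [h8, map_zero] at hneg
      exact lt_irrefl 0 hneg
    · rw [hS2eq, hS2, mem_filter]
      refine ⟨hacS, ?_, ?_, ?_⟩
      · rw [hval]; linarith [hcmin a ha]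
      · rw [hval]; linarith
      · rw [hval]; exact hz
  refine no_walk (A2.image φ) m M p1 q1 ?_ ?_ ?_ ?_ ?_
  · rw [mem_image]
    refine ⟨c, ?_, rfl⟩
    rw [hA2, mem_filter]
    exact ⟨hcA, ne_of_lt p1⟩
  · intro n hn
    rw [mem_image] at hn
    obtain ⟨a, ha, rfl⟩ := hn
    rw [hA2, mem_filter] at ha
    exact ⟨hcmin a ha.1, hdmax a ha.1⟩
  · intro hn
    rw [mem_image] at hn
    obtain ⟨a, ha, h0⟩ := hn
    rw [hA2, mem_filter] at ha
    exact ha.2 h0
  · intro n hn hpos
    rw [mem_image] at hn ⊢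
    obtain ⟨a, ha, rfl⟩ := hn
    rw [hA2, mem_filter] at ha
    exact ⟨a + c, hmove1 a ha.1 hpos, by rw [map_add]⟩
  · intro n hn hneg
    rw [mem_image] at hn ⊢
    obtain ⟨a, ha, rfl⟩ := hn
    rw [hA2, mem_filter] at ha
    exact ⟨a + d, hmove2 a ha.1 hneg, by rw [map_add]⟩

end Pool.Agent.Work.MP_59976d_co
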