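import Pool.Agent.Work.MP_59976d_co.Step

/-!
Restricted sumsets of sets without nontrivial three-term progressions.
-/

namespace Pool.Agent.Work.MP_59976d_co

open Finset

variable {G : Type*} [AddCommGroup G] [DecidableEq G]

/-- number of representations of `e` as a difference -/
def rho (A : Finset G) (e : G) : ℕ := (A.filter (fun a => a + e ∈ A)).card

/-- all differences -/
def dif (A : Finset G) : Finset G := (A ×ˢ A).image (fun p => p.2 - p.1)

/-- number of representations of `s` as a sum of distinct elements -/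
def rr (A : Finset G) (s : G) : ℕ := (A.offDiag.filter (fun p => p.1 + p.2 = s)).card

/-- quadruples -/
def quad (A : Finset G) : Finset ((G × G) × (G × G)) :=
  (A.offDiag ×ˢ A.offDiag).filter (fun q => q.1.1 + q.1.2 = q.2.1 + q.2.2)

/-- all quadruples -/
def quadAll (A : Finset G) : Finset ((G × G) × (G × G)) :=
  ((A ×ˢ A) ×ˢ (A ×ˢ A)).filter (fun q => q.1.1 + q.1.2 = q.2.1 + q.2.2)

lemma mem_rs_offDiag {A : Finset G} {x : G} :
    x ∈ rs A A ↔ ∃ p ∈ A.offDiag, p.1 + p.2 = x := by
  rw [mem_rs]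
  constructor
  · rintro ⟨a, ha, b, hb, hne, rfl⟩
    exact ⟨(a, b), mem_offDiag.2 ⟨ha, hb, hne⟩, rfl⟩
  · rintro ⟨p, hp, rfl⟩
    rw [mem_offDiag] at hp
    exact ⟨p.1, hp.1, p.2, hp.2.1, hp.2.2, rfl⟩

lemma sum_rr (A : Finset G) : ∑ s ∈ rs A A, rr A s = A.card * A.card - A.card := by
  rw [← offDiag_card, card_eq_sum_card_fiberwise (f := fun p : G × G => p.1 + p.2) (t := rs A A)]
  · rfl
  · intro p hp
    exact mem_rs_offDiag.2 ⟨p, hp, rfl⟩

lemma card_quad (A : Finset G) : (quad A).card = ∑ s ∈ rs A A, (rr A s) ^ 2 := by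
  rw [card_eq_sum_card_fiberwise (f := fun q : (G × G) × (G × G) => q.1.1 + q.1.2) (t := rs A A)]
  · apply Finset.sum_congr rfl
    intro s _
    have : (quad A).filter (fun q => q.1.1 + q.1.2 = s) =
        (A.offDiag.filter (fun p => p.1 + p.2 = s)) ×ˢ (A.offDiag.filter (fun p => p.1 + p.2 = s)) := by
      ext q
      unfold quad
      simp only [mem_filter, mem_product]
      constructor
      · rintro ⟨⟨⟨h1, h2⟩, h3⟩, h4⟩
        exact ⟨⟨h1, h4⟩, ⟨h2, by rw [← h3]; exact h4⟩⟩
      · rintro ⟨⟨h1, h4⟩, ⟨h2, h5⟩⟩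
        exact ⟨⟨⟨h1, h2⟩, by rw [h4, h5]⟩, h4⟩
    rw [this, card_product, sq]
    rfl
  · intro q hq
    unfold quad at hq
    rw [mem_coe, mem_filter, mem_product] at hq
    exact mem_rs_offDiag.2 ⟨q.1, hq.1.1, rfl⟩

lemma sum_rho (A : Finset G) : ∑ e ∈ dif A, rho A e = A.card * A.card := by
  rw [← card_product, card_eq_sum_card_fiberwise (f := fun p : G × G => p.2 - p.1) (t := dif A)]
  · apply Finset.sum_congr rfl
    intro e _
    unfold rho
    refine card_bij (fun a _ => (a, a + e)) ?_ ?_ ?_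
    · intro a ha
      rw [mem_filter] at ha
      rw [mem_filter, mem_product]
      exact ⟨⟨ha.1, ha.2⟩, by simp⟩
    · intro a _ b _ h
      exact congrArg Prod.fst h
    · rintro ⟨x, y⟩ hp
      rw [mem_filter, mem_product] at hp
      simp only at hp
      have : x + e = y := by rw [← hp.2]; abel
      exact ⟨x, by rw [mem_filter, this]; exact ⟨hp.1.1, hp.1.2⟩, by rw [this]⟩
  · intro p hp
    exact mem_image_of_mem _ hp

lemma card_quadAll (A : Finset G) : (quadAll A).card = ∑ e ∈ dif A, (rho A e) ^ 2 := by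
  rw [card_eq_sum_card_fiberwise (f := fun q : (G × G) × (G × G) => q.2.1 - q.1.1) (t := dif A)]
  · apply Finset.sum_congr rfl
    intro e _
    rw [sq]
    unfold rho
    rw [← card_product]
    symm
    refine card_bij (fun p _ => ((p.1, p.2 + e), (p.1 + e, p.2))) ?_ ?_ ?_
    · intro p hp
      rw [mem_product, mem_filter, mem_filter] at hp
      unfold quadAll
      rw [mem_filter, mem_filter, mem_product, mem_product, mem_product]
      refine ⟨⟨⟨⟨hp.1.1, hp.2.2⟩, ⟨hp.1.2, hp.2.1⟩⟩, ?_⟩, ?_⟩
      · show p.1 + (p.2 + e) = p.1 + e + p.2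
        abel
      · show p.1 + e - p.1 = e
        abel
    · intro p _ p' _ h
      have h1 := congrArg (fun q : (G × G) × (G × G) => q.1.1) h
      have h2 := congrArg (fun q : (G × G) × (G × G) => q.2.2) h
      exact Prod.ext h1 h2
    · rintro ⟨⟨a, b⟩, ⟨c, d⟩⟩ hq
      unfold quadAll at hq
      rw [mem_filter, mem_filter, mem_product, mem_product, mem_product] at hq
      simp only at hq
      obtain ⟨⟨⟨⟨ha, hb⟩, hc, hd⟩, h1⟩, h2⟩ := hq
      have hc' : a + e = c := by rw [← h2]; abel
      have hb' : d + e = b := by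
        have : b = c + d - a := by rw [← h1]; abel
        rw [this, ← h2]; abel
      refine ⟨(a, d), ?_, ?_⟩
      · rw [mem_product, mem_filter, mem_filter]
        simp only
        rw [hc', hb']
        exact ⟨⟨ha, hc⟩, ⟨hd, hb⟩⟩
      · simp only
        rw [hc', hb']
  · intro q hq
    unfold quadAll at hq
    rw [mem_coe, mem_filter, mem_product, mem_product, mem_product] at hq
    unfold dif
    rw [mem_coe, mem_image]
    exact ⟨(q.1.1, q.2.1), by rw [mem_product]; exact ⟨hq.1.1.1, hq.1.2.1⟩, rfl⟩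

/-- No nontrivial three-term progression. -/
def Free (A : Finset G) : Prop := ∀ a ∈ A, ∀ b ∈ A, ∀ c ∈ A, b + c = a + a → b = a

lemma quadAll_eq (A : Finset G) (hA : Free A) : (quadAll A).card = (quad A).card + A.card := by
  have h1 : quadAll A = quad A ∪ A.image (fun a => ((a, a), (a, a))) := by
    ext ⟨⟨a, b⟩, ⟨c, d⟩⟩
    unfold quadAll quad
    rw [mem_union, mem_filter, mem_filter, mem_product, mem_product, mem_product, mem_product,
      mem_offDiag, mem_offDiag, mem_image]
    simp only
    constructor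
    · rintro ⟨⟨⟨ha, hb⟩, hc, hd⟩, h⟩
      by_cases hab : a = b
      · right
        subst hab
        have h1 := hA a ha c hc d hd h.symm
        subst h1
        have h2 : c = d := add_left_cancel h
        subst h2
        exact ⟨c, ha, rfl⟩
      by_cases hcd : c = d
      · right
        subst hcd
        have h1 := hA c hc a ha b hb h
        subst h1
        have h2 : b = a := add_left_cancel h
        exact absurd h2.symm hab
      · left
        exact ⟨⟨⟨ha, hb, hab⟩, hc, hd, hcd⟩, h⟩
    · rintro (⟨⟨⟨ha, hb, _⟩, hc, hd, _⟩, h⟩ | ⟨x, hx, hxe⟩)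
      · exact ⟨⟨⟨ha, hb⟩, hc, hd⟩, h⟩
      · simp only [Prod.mk.injEq] at hxe
        obtain ⟨⟨rfl, rfl⟩, rfl, rfl⟩ := hxe
        exact ⟨⟨⟨hx, hx⟩, hx, hx⟩, rfl⟩
  have h2 : Disjoint (quad A) (A.image (fun a => ((a, a), (a, a)))) := by
    rw [disjoint_left]
    intro q hq hq'
    rw [mem_image] at hq'
    obtain ⟨x, _, rfl⟩ := hq'
    unfold quad at hq
    rw [mem_filter, mem_product, mem_offDiag] at hq
    exact hq.1.1.2.2 rfl
  rw [h1, card_union_of_disjoint h2, card_image_of_injective]
  intro x y hxy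
  exact congrArg (fun q : (G × G) × (G × G) => q.1.1) hxy

lemma free_ap {A : Finset G} (hA : Free A) {x e : G} (hx : x ∈ A) (h1 : x + e ∈ A)
    (h2 : x - e ∈ A) : e = 0 := by
  have := hA x hx (x + e) h1 (x - e) h2 (by abel)
  simpa using this

lemma card_shift (A : Finset G) (e : G) :
    (A.filter (fun a => a - e ∈ A)).card = rho A e := by
  unfold rho
  symm
  refine card_bij (fun a _ => a + e) ?_ ?_ ?_
  · intro a ha
    rw [mem_filter] at ha ⊢
    exact ⟨ha.2, by simpa using ha.1⟩
  · intro a _ b _ h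
    simpa using h
  · intro b hb
    rw [mem_filter] at hb
    exact ⟨b - e, by rw [mem_filter]; exact ⟨hb.2, by simpa using hb.1⟩, by simp⟩

lemma rho_neg (A : Finset G) (e : G) : rho A (-e) = rho A e := by
  rw [← card_shift]
  unfold rho
  congr 1
  apply filter_congr
  intro x _
  rw [sub_neg_eq_add]

lemma two_rho_le {A : Finset G} (hA : Free A) {e : G} (he : e ≠ 0) :
    2 * rho A e ≤ A.card ∧ (2 * rho A e = A.card → ∀ x ∈ A, x + e ∈ A ∨ x - e ∈ A) := by
  have hd : Disjoint (A.filter (fun a => a + e ∈ A)) (A.filter (fun a => a - e ∈ A)) := by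
    rw [disjoint_left]
    intro x hx hx'
    rw [mem_filter] at hx hx'
    exact he (free_ap hA hx.1 hx.2 hx'.2)
  have hsub : A.filter (fun a => a + e ∈ A) ∪ A.filter (fun a => a - e ∈ A) ⊆ A :=
    union_subset (filter_subset _ _) (filter_subset _ _)
  have hcard : (A.filter (fun a => a + e ∈ A) ∪ A.filter (fun a => a - e ∈ A)).card =
      2 * rho A e := by
    rw [card_union_of_disjoint hd, card_shift]
    unfold rho; ring
  refine ⟨?_, ?_⟩
  · rw [← hcard]; exact card_le_card hsub
  · intro heq x hx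
    have : A.filter (fun a => a + e ∈ A) ∪ A.filter (fun a => a - e ∈ A) = A :=
      eq_of_subset_of_card_le hsub (by rw [hcard, heq])
    rw [← this, mem_union, mem_filter, mem_filter] at hx
    rcases hx with hx | hx
    · exact Or.inl hx.2
    · exact Or.inr hx.2

/-- Subset sums of popular differences stay in the set. -/
lemma subset_sums {A : Finset G} (hA : Free A) (P : Finset G)
    (hP : ∀ e ∈ P, e ≠ 0 ∧ ∀ x ∈ A, x + e ∈ A ∨ x - e ∈ A) (a : G) (ha : a ∈ A)
    (haP : ∀ e ∈ P, a + e ∈ A) :
    ∀ n : ℕ, ∀ F : Finset G, F ⊆ P → F.card = n → a + ∑ e ∈ F, e ∈ A := by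
  intro n
  induction n using Nat.strong_induction_on with
  | _ n ih =>
    intro F hF hcard
    rcases Nat.lt_or_ge n 2 with hn | hn
    · rcases Nat.eq_zero_or_pos n with h0 | h1
      · have : F = ∅ := card_eq_zero.1 (by omega)
        rw [this, sum_empty, add_zero]; exact ha
      · obtain ⟨e, he⟩ := card_eq_one.1 (show F.card = 1 by omega)
        rw [he, sum_singleton]
        exact haP e (hF (by rw [he]; exact mem_singleton_self e))
    · obtain ⟨e, he, f, hf, hef⟩ := one_lt_card.1 (show 1 < F.card by omega)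
      have hfe : f ∈ F.erase e := mem_erase.2 ⟨Ne.symm hef, hf⟩
      have hef' : e ∈ F.erase f := mem_erase.2 ⟨hef, he⟩
      set x := a + ∑ g ∈ (F.erase e).erase f, g with hx
      have hs1 : ∑ g ∈ F.erase e, g = f + ∑ g ∈ (F.erase e).erase f, g :=
        (add_sum_erase (F.erase e) (fun g => g) hfe).symm
      have hs2 : ∑ g ∈ F.erase f, g = e + ∑ g ∈ (F.erase f).erase e, g :=
        (add_sum_erase (F.erase f) (fun g => g) hef').symm
      have hs3 : ∑ g ∈ F, g = e + ∑ g ∈ F.erase e, g :=
        (add_sum_erase F (fun g => g) he).symm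
      have hx0 : x ∈ A := ih (((F.erase e).erase f).card) (by
        rw [card_erase_of_mem hfe, card_erase_of_mem he]; omega) _
        ((erase_subset _ _).trans ((erase_subset _ _).trans hF)) rfl
      have hx1 : x + f ∈ A := by
        have := ih ((F.erase e).card) (by rw [card_erase_of_mem he]; omega) _
          ((erase_subset _ _).trans hF) rfl
        rw [hs1] at this
        rw [hx]
        convert this using 1
        abel
      have hx2 : x + e ∈ A := by
        have := ih ((F.erase f).card) (by rw [card_erase_of_mem hf]; omega) _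
          ((erase_subset _ _).trans hF) rfl
        rw [hs2, erase_right_comm] at this
        rw [hx]
        convert this using 1
        abel
      have hgoal : a + ∑ g ∈ F, g = x + e + f := by
        rw [hs3, hs1, hx]; abel
      rw [hgoal]
      by_contra hnot
      have h1 := (hP f (hF hf)).2 (x + e) hx2
      have h2 := (hP e (hF he)).2 (x + f) hx1
      have h3 : x + (e - f) ∈ A := by
        rcases h1 with h1 | h1
        · exact absurd h1 hnot
        · convert h1 using 1; abel
      have h4 : x - (e - f) ∈ A := by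
        rcases h2 with h2 | h2
        · exact absurd (by convert h2 using 1; abel) hnot
        · convert h2 using 1; abel
      have := free_ap hA hx0 h3 h4
      exact hef (sub_eq_zero.1 this)

lemma two_pow_le {A : Finset G} (hA : Free A) (P : Finset G)
    (hP : ∀ e ∈ P, e ≠ 0 ∧ ∀ x ∈ A, x + e ∈ A ∨ x - e ∈ A) (a : G) (ha : a ∈ A)
    (haP : ∀ e ∈ P, a + e ∈ A) : 2 ^ P.card ≤ A.card := by
  rw [← card_powerset]
  have hmem : ∀ F ⊆ P, a + ∑ e ∈ F, e ∈ A :=
    fun F hF => subset_sums hA P hP a ha haP F.card F hF rfl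
  have aux : ∀ F F' : Finset G, F ⊆ P → F' ⊆ P → ∑ e ∈ F, e = ∑ e ∈ F', e → F ⊆ F' := by
    intro F F' hF hF' heq e he
    by_contra hne
    have h1 := hmem F hF
    have h2 := hmem (F.erase e) ((erase_subset _ _).trans hF)
    have h3 := hmem (insert e F') (insert_subset (hF he) hF')
    rw [sum_insert hne, ← heq] at h3
    have h4 : ∑ g ∈ F, g = e + ∑ g ∈ F.erase e, g := (add_sum_erase F (fun g => g) he).symm
    apply (hP e (hF he)).1
    apply free_ap hA h1
    · convert h3 using 1; abel
    · rw [h4]; convert h2 using 1; abel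
  apply card_le_card_of_injOn (fun F => a + ∑ e ∈ F, e)
  · intro F hF
    exact hmem F (mem_powerset.1 hF)
  · intro F hF F' hF' h
    have hF1 := mem_powerset.1 (mem_coe.1 hF)
    have hF2 := mem_powerset.1 (mem_coe.1 hF')
    have heq : ∑ e ∈ F, e = ∑ e ∈ F', e := add_left_cancel h
    exact Subset.antisymm (aux F F' hF1 hF2 heq) (aux F' F hF2 hF1 heq.symm)


/-- Restricted sumsets of sets without nontrivial three-term progressions. -/
theorem three_ap (A : Finset G) (hA : Free A) : 2 * A.card ≤ (rs A A).card + 3 := by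
  by_contra hcon
  push Not at hcon
  have hne : A.Nonempty := by
    rw [← card_pos]; omega
  obtain ⟨a, ha⟩ := hne
  set L := A.card with hL
  set D := (dif A).erase 0 with hD
  have h0dif : (0 : G) ∈ dif A := by
    unfold dif
    rw [mem_image]
    exact ⟨(a, a), mem_product.2 ⟨ha, ha⟩, sub_self a⟩
  have hrho0 : rho A 0 = L := by
    unfold rho
    rw [hL]
    congr 1
    apply filter_true_of_mem
    intro x hx
    rw [add_zero]; exact hx
  have hsum1 : L + ∑ e ∈ D, rho A e = L * L := by
    rw [← sum_rho A, ← add_sum_erase (dif A) (rho A) h0dif, hrho0]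
  have hsum2 : L ^ 2 + ∑ e ∈ D, (rho A e) ^ 2 = (quad A).card + L := by
    rw [← quadAll_eq A hA, card_quadAll, ← add_sum_erase (dif A) (fun e => (rho A e) ^ 2) h0dif,
      hrho0]
  have hcs : (L * L - L) ^ 2 ≤ (rs A A).card * (quad A).card := by
    rw [card_quad, ← sum_rr]
    exact sq_sum_le_card_mul_sum_sq
  -- integers
  obtain ⟨σ, hσ⟩ : ∃ σ : ℤ, σ = (rs A A).card := ⟨_, rfl⟩
  obtain ⟨q, hq⟩ : ∃ q : ℤ, q = (quad A).card := ⟨_, rfl⟩
  obtain ⟨l, hl⟩ : ∃ l : ℤ, l = L := ⟨_, rfl⟩
  obtain ⟨Y, hY⟩ : ∃ Y : ℤ, Y = ((∑ e ∈ D, (rho A e) ^ 2 : ℕ) : ℤ) := ⟨_, rfl⟩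
  obtain ⟨Z, hZ⟩ : ∃ Z : ℤ, Z = ((∑ e ∈ D, rho A e : ℕ) : ℤ) := ⟨_, rfl⟩
  have hLL : L ≤ L * L := Nat.le_mul_self L
  have i1 : Z = l * l - l := by
    rw [hZ, hl]
    have : ((L + ∑ e ∈ D, rho A e : ℕ) : ℤ) = ((L * L : ℕ) : ℤ) := by rw [hsum1]
    push_cast at this ⊢
    linarith
  have i2 : q = l * l - l + Y := by
    rw [hq, hl, hY]
    have : ((L ^ 2 + ∑ e ∈ D, (rho A e) ^ 2 : ℕ) : ℤ) = (((quad A).card + L : ℕ) : ℤ) := by
      rw [hsum2]
    push_cast at this ⊢
    linarith
  have i3 : (l * l - l) ^ 2 ≤ σ * q := by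
    have : (((L * L - L) ^ 2 : ℕ) : ℤ) ≤ (((rs A A).card * (quad A).card : ℕ) : ℤ) := by
      exact_mod_cast hcs
    rw [hσ, hq, hl]
    push_cast [Nat.cast_sub hLL] at this ⊢
    exact this
  have i4 : σ ≤ 2 * l - 4 := by rw [hσ, hl]; omega
  have hq0 : 0 ≤ q := by rw [hq]; positivity
  have hσ0 : 0 ≤ σ := by rw [hσ]; positivity
  have hl2 : 2 ≤ l := by linarith
  have i5 : (l * l - l) ^ 2 ≤ (2 * l - 4) * q := i3.trans (mul_le_mul_of_nonneg_right i4 hq0)
  have hpos : 0 < l * l - l := by nlinarith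
  rcases Nat.even_or_odd L with hev | hodd
  · -- even
    set P := D.filter (fun e => 2 * rho A e = L) with hP
    have hbound : ∀ e ∈ D, 2 * (rho A e) ^ 2 + 2 * rho A e ≤ L * rho A e +
        (if 2 * rho A e = L then L else 0) := by
      intro e he
      rw [hD, mem_erase] at he
      have h1 := (two_rho_le hA he.1).1
      obtain ⟨k, hk⟩ := hev
      split_ifs with h2
      · rw [← h2]
        have h5 : 2 * (rho A e) ^ 2 + 2 * rho A e = 2 * rho A e * rho A e + 2 * rho A e := by ring
        rw [h5]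
      · have h3 : rho A e + 1 ≤ k := by omega
        rw [hk]
        have h4 : (rho A e + 1) * rho A e ≤ k * rho A e := Nat.mul_le_mul_right _ h3
        have h5 : 2 * (rho A e) ^ 2 + 2 * rho A e = 2 * ((rho A e + 1) * rho A e) := by ring
        have h6 : (k + k) * rho A e + 0 = 2 * (k * rho A e) := by ring
        rw [h5, h6]
        omega
    have hb2 : 2 * ∑ e ∈ D, (rho A e) ^ 2 + 2 * ∑ e ∈ D, rho A e ≤
        L * ∑ e ∈ D, rho A e + L * P.card := by
      have := Finset.sum_le_sum hbound
      rw [sum_add_distrib, sum_add_distrib, ← mul_sum, ← mul_sum, ← mul_sum, ← sum_filter,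
        sum_const, smul_eq_mul, mul_comm _ L] at this
      exact this
    obtain ⟨π, hπ⟩ : ∃ π : ℤ, π = P.card := ⟨_, rfl⟩
    have i6 : 2 * Y + 2 * Z ≤ l * Z + l * π := by
      rw [hY, hZ, hl, hπ]
      exact_mod_cast hb2
    -- |P| ≥ L + 2
    have i7 : l + 2 ≤ π := by
      by_contra hc
      push Not at hc
      have hc' : π ≤ l + 1 := by linarith
      have i8 : 2 * q ≤ l * (l * l - l) + l * (l + 1) := by
        rw [i1] at i6
        have : l * π ≤ l * (l + 1) := mul_le_mul_of_nonneg_left hc' (by linarith)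
        rw [i2]; linarith
      have i9 : 2 * (l * l - l) ^ 2 ≤ (2 * l - 4) * (l * (l * l - l) + l * (l + 1)) := by
        have : (2 * l - 4) * (2 * q) ≤ (2 * l - 4) * (l * (l * l - l) + l * (l + 1)) :=
          mul_le_mul_of_nonneg_left i8 (by linarith)
        linarith
      have i10 : 2 * (l * l - l) ^ 2 =
          (2 * l - 4) * (l * (l * l - l) + l * (l + 1)) + 4 * l := by ring
      linarith
    have hPprop : ∀ e ∈ P, e ≠ 0 ∧ ∀ x ∈ A, x + e ∈ A ∨ x - e ∈ A := by
      intro e he
      rw [hP, mem_filter, hD, mem_erase] at he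
      exact ⟨he.1.1, (two_rho_le hA he.1.1).2 he.2⟩
    -- half of `P`
    set Pa := P.filter (fun e => a + e ∈ A) with hPa
    have hhalf : 2 * Pa.card = P.card := by
      have h1 := card_filter_add_card_filter_not (s := P) (fun e => a + e ∈ A)
      rw [← hPa] at h1
      have h2 : (P.filter (fun e => ¬ a + e ∈ A)).card = Pa.card := by
        rw [hPa]
        refine card_bij (fun e _ => -e) ?_ ?_ ?_
        · intro e he
          rw [mem_filter] at he ⊢
          refine ⟨?_, ?_⟩
          · rw [hP, mem_filter, hD, mem_erase] at he ⊢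
            refine ⟨⟨neg_ne_zero.2 he.1.1.1, ?_⟩, by rw [rho_neg]; exact he.1.2⟩
            have h3 := he.1.1.2
            unfold dif at h3 ⊢
            rw [mem_image] at h3 ⊢
            obtain ⟨p, hp, hpe⟩ := h3
            rw [mem_product] at hp
            exact ⟨(p.2, p.1), mem_product.2 ⟨hp.2, hp.1⟩, by rw [← hpe]; simp⟩
          · rcases (hPprop e he.1).2 a ha with h | h
            · exact absurd h he.2
            · rw [← sub_eq_add_neg]; exact h
        · intro e _ e' _ h
          exact neg_injective h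
        · intro e he
          rw [mem_filter] at he
          refine ⟨-e, ?_, by simp⟩
          rw [mem_filter]
          refine ⟨?_, ?_⟩
          · rw [hP, mem_filter, hD, mem_erase] at he ⊢
            refine ⟨⟨neg_ne_zero.2 he.1.1.1, ?_⟩, by rw [rho_neg]; exact he.1.2⟩
            have h3 := he.1.1.2
            unfold dif at h3 ⊢
            rw [mem_image] at h3 ⊢
            obtain ⟨p, hp, hpe⟩ := h3
            rw [mem_product] at hp
            exact ⟨(p.2, p.1), mem_product.2 ⟨hp.2, hp.1⟩, by rw [← hpe]; simp⟩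
          · intro hcontra
            apply (hPprop e he.1).1
            exact free_ap hA ha he.2 (by rw [sub_eq_add_neg]; exact hcontra)
      omega
    have hpow := two_pow_le hA Pa (fun e he => hPprop e (mem_filter.1 he).1) a ha
      (fun e he => (mem_filter.1 he).2)
    have hPc : L + 2 ≤ P.card := by
      rw [hl, hπ] at i7; exact_mod_cast i7
    have hlt : 2 * (Pa.card - 1) < 2 ^ Pa.card := by
      obtain ⟨k, hk⟩ : ∃ k, Pa.card = k + 1 := ⟨Pa.card - 1, by omega⟩
      rw [hk, pow_succ]
      have : k < 2 ^ k := Nat.lt_two_pow_self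
      simp only [Nat.add_sub_cancel]
      omega
    omega
  · -- odd
    have hbound : ∀ e ∈ D, 2 * (rho A e) ^ 2 + rho A e ≤ L * rho A e := by
      intro e he
      rw [hD, mem_erase] at he
      have h1 := (two_rho_le hA he.1).1
      obtain ⟨k, hk⟩ := hodd
      have h3 : rho A e ≤ k := by omega
      rw [hk]
      have h4 : rho A e * rho A e ≤ k * rho A e := Nat.mul_le_mul_right _ h3
      have h5 : 2 * (rho A e) ^ 2 + rho A e = 2 * (rho A e * rho A e) + rho A e := by ring
      have h6 : (2 * k + 1) * rho A e = 2 * (k * rho A e) + rho A e := by ring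
      rw [h5, h6]
      omega
    have hb2 : 2 * ∑ e ∈ D, (rho A e) ^ 2 + ∑ e ∈ D, rho A e ≤ L * ∑ e ∈ D, rho A e := by
      have := Finset.sum_le_sum hbound
      rw [sum_add_distrib, ← mul_sum, ← mul_sum] at this
      exact this
    have i6 : 2 * Y + Z ≤ l * Z := by
      rw [hY, hZ, hl]
      exact_mod_cast hb2
    have i8 : 2 * q ≤ (l + 1) * (l * l - l) := by
      rw [i1] at i6
      rw [i2]; linarith
    have i9 : 2 * (l * l - l) ^ 2 ≤ (2 * l - 4) * ((l + 1) * (l * l - l)) := by
      have : (2 * l - 4) * (2 * q) ≤ (2 * l - 4) * ((l + 1) * (l * l - l)) :=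
        mul_le_mul_of_nonneg_left i8 (by linarith)
      linarith
    have i10 : 2 * (l * l - l) ^ 2 =
        (2 * l - 4) * ((l + 1) * (l * l - l)) + 4 * (l * l - l) := by ring
    linarith

end Pool.Agent.Work.MP_59976d_co
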